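import Pool.Agent.Lib.Pf720ae.Principle

/-!
# Coordinates on which only the weights depend
-/

set_option autoImplicit false
set_option linter.unusedSectionVars false

open Finset Filter Topology

namespace Pool.Agent.Lib.Pf720pi

open Pool.Agent.Lib.Pf720ae

variable {κ : Type} [Fintype κ] [DecidableEq κ]

/-- glue the visible and the invisible coordinates -/
def glue (vis : κ → Prop) [DecidablePred vis] (a : {l // vis l} → ℕ) (b : {l // ¬ vis l} → ℕ) :
    κ → ℕ :=
  fun l => if h : vis l then a ⟨l, h⟩ else b ⟨l, h⟩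

/-- splitting a box average into visible and invisible coordinates -/
lemma avg_glue (vis : κ → Prop) [DecidablePred vis] (M : κ → ℕ) (Φ : (κ → ℕ) → ℝ) :
    avg M Φ = avg (fun l : {l // vis l} => M l) fun a =>
      avg (fun l : {l // ¬ vis l} => M l) fun b => Φ (glue vis a b) := by
  have hsum : ∑ m ∈ box M, Φ m = ∑ a ∈ box (fun l : {l // vis l} => M l),
      ∑ b ∈ box (fun l : {l // ¬ vis l} => M l), Φ (glue vis a b) := by
    rw [← Finset.sum_product']
    refine Finset.sum_bij' (fun m _ => (fun l : {l // vis l} => m l, fun l : {l // ¬ vis l} => m l))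
      (fun p _ => glue vis p.1 p.2) ?_ ?_ ?_ ?_ ?_
    · intro m hm
      rw [mem_box] at hm
      simp only [Finset.mem_product, mem_box]
      exact ⟨fun l => hm l, fun l => hm l⟩
    · rintro ⟨a, b⟩ h
      simp only [Finset.mem_product, mem_box] at h
      rw [mem_box]
      intro l
      unfold glue
      split_ifs with hl
      · exact h.1 ⟨l, hl⟩
      · exact h.2 ⟨l, hl⟩
    · intro m _
      funext l
      simp [glue]
    · rintro ⟨a, b⟩ _
      refine Prod.ext (funext fun l => ?_) (funext fun l => ?_)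
      · simp [glue, l.2]
      · simp [glue, l.2]
    · intro m _
      congr 1
      funext l
      simp [glue]
  have hprod : ∏ l, (M l : ℝ) = (∏ l : {l // vis l}, (M l : ℝ)) * ∏ l : {l // ¬ vis l}, (M l : ℝ) :=
    (Fintype.prod_subtype_mul_prod_subtype vis fun l => (M l : ℝ)).symm
  unfold avg
  rw [hsum, hprod, mul_inv, mul_assoc, Finset.mul_sum]

/-- splitting a box average over a sum type -/
lemma avg_sumElim {α β : Type} [Fintype α] [DecidableEq α] [Fintype β] [DecidableEq β]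
    (M : α ⊕ β → ℕ) (Φ : (α ⊕ β → ℕ) → ℝ) :
    avg M Φ = avg (fun a => M (Sum.inl a)) fun a => avg (fun b => M (Sum.inr b)) fun b =>
      Φ (Sum.elim a b) := by
  have hsum : ∑ m ∈ box M, Φ m = ∑ a ∈ box (fun l => M (Sum.inl l)),
      ∑ b ∈ box (fun l => M (Sum.inr l)), Φ (Sum.elim a b) := by
    rw [← Finset.sum_product']
    refine Finset.sum_bij' (fun m _ => (fun l => m (Sum.inl l), fun l => m (Sum.inr l)))
      (fun p _ => Sum.elim p.1 p.2) ?_ ?_ ?_ ?_ ?_
    · intro m hm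
      rw [mem_box] at hm
      simp only [Finset.mem_product, mem_box]
      exact ⟨fun l => hm _, fun l => hm _⟩
    · rintro ⟨a, b⟩ h
      simp only [Finset.mem_product, mem_box] at h
      rw [mem_box]
      rintro (l | l)
      · exact h.1 l
      · exact h.2 l
    · intro m _
      funext l
      rcases l with l | l <;> rfl
    · rintro ⟨a, b⟩ _
      rfl
    · intro m _
      congr 1
      funext l
      rcases l with l | l <;> rfl
  unfold avg
  rw [hsum, Fintype.prod_sum_type, mul_inv, mul_assoc, Finset.mul_sum]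

lemma avg_smul_right (M : κ → ℕ) (c : ℝ) (Φ : (κ → ℕ) → ℝ) :
    avg M (fun m => Φ m * c) = avg M Φ * c := by
  simp only [avg, ← Finset.sum_mul]; ring

theorem doubling (vis : κ → Prop) [DecidablePred vis] (G w : (κ → ℕ) → ℝ)
    (hG1 : ∀ m, |G m| ≤ 1) (hw1 : ∀ m, |w m| ≤ 1)
    (hG : ∀ m m', (∀ l, vis l → m l = m' l) → G m = G m')
    (hfix : ∀ M₀ : {l // ¬ vis l} → ℕ, (∀ l, 0 < M₀ l) →
      Tendsto (fun M₁ : {l // vis l} → ℕ => avg M₁ fun m₁ =>
        G (glue vis m₁ 0) * avg M₀ fun m₀ => w (glue vis m₁ m₀)) atTop (𝓝 0))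
    (hcv : Cvg fun m : {l // vis l} ⊕ ({l // ¬ vis l} ⊕ {l // ¬ vis l}) → ℕ =>
      w (glue vis (fun l => m (Sum.inl l)) (fun l => m (Sum.inr (Sum.inl l)))) *
        w (glue vis (fun l => m (Sum.inl l)) (fun l => m (Sum.inr (Sum.inr l))))) :
    Tendsto (fun M : κ → ℕ => avg M fun m => G m * w m) atTop (𝓝 0) := by
  -- the inner averages
  obtain ⟨V, hV⟩ : ∃ V : ({l // ¬ vis l} → ℕ) → ({l // vis l} → ℕ) → ℝ,
      ∀ M₀ m₁, V M₀ m₁ = avg M₀ fun m₀ => w (glue vis m₁ m₀) := ⟨_, fun _ _ => rfl⟩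
  have hmain : ∀ M : κ → ℕ, (avg M fun m => G m * w m)
      = avg (fun l : {l // vis l} => M l) fun a =>
        G (glue vis a 0) * V (fun l : {l // ¬ vis l} => M l) a := by
    intro M
    rw [avg_glue vis]
    congr 1
    funext a
    rw [hV, ← avg_smul]
    congr 1
    funext b
    rw [hG (glue vis a b) (glue vis a 0)]
    intro l hl
    simp [glue, hl]
  obtain ⟨D, hD⟩ : ∃ D : ({l // vis l} → ℕ) → ({l // ¬ vis l} → ℕ) → ({l // ¬ vis l} → ℕ) → ℝ,
      ∀ M₁ A B, D M₁ A B = avg M₁ fun a => V A a * V B a := ⟨_, fun _ _ _ => rfl⟩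
  have hDM : ∀ (M₁ : {l // vis l} → ℕ) (A B : {l // ¬ vis l} → ℕ),
      avg (Sum.elim M₁ (Sum.elim A B)) (fun m : {l // vis l} ⊕ ({l // ¬ vis l} ⊕ {l // ¬ vis l}) → ℕ =>
      w (glue vis (fun l => m (Sum.inl l)) (fun l => m (Sum.inr (Sum.inl l)))) *
        w (glue vis (fun l => m (Sum.inl l)) (fun l => m (Sum.inr (Sum.inr l))))) = D M₁ A B := by
    intro M₁ A B
    rw [avg_sumElim, hD]
    congr 1
    funext a
    rw [avg_sumElim]
    simp only [Sum.elim_inl, Sum.elim_inr]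
    rw [hV, hV]
    rw [← avg_smul_right]
    congr 1
    funext b
    rw [avg_smul]
  obtain ⟨L, hL⟩ := hcv
  rw [Metric.tendsto_atTop] at hL ⊢
  intro ε hε
  obtain ⟨N₀, hN₀⟩ := hL (ε ^ 2 / 16) (by positivity)
  -- thresholds
  obtain ⟨K, hK⟩ : ∃ K : {l // ¬ vis l} → ℕ, ∀ l, K l = max (max (N₀ (Sum.inr (Sum.inl l)))
      (N₀ (Sum.inr (Sum.inr l)))) 1 := ⟨_, fun _ => rfl⟩
  have hK1 : ∀ l, N₀ (Sum.inr (Sum.inl l)) ≤ K l := fun l => by rw [hK]; omega
  have hK2 : ∀ l, N₀ (Sum.inr (Sum.inr l)) ≤ K l := fun l => by rw [hK]; omega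
  have hK3 : ∀ l, 0 < K l := fun l => by rw [hK]; omega
  have hf := hfix K hK3
  rw [Metric.tendsto_atTop] at hf
  obtain ⟨P, hP⟩ := hf (ε / 2) (by positivity)
  refine ⟨glue vis (fun l => max (P l) (N₀ (Sum.inl l))) K, fun M hM => ?_⟩
  have hMv1 : ∀ l : {l // vis l}, P l ≤ M l := by
    intro l
    have := hM l
    simp only [glue, l.2, dif_pos] at this
    exact (le_max_left _ _).trans this
  have hMv2 : ∀ l : {l // vis l}, N₀ (Sum.inl l) ≤ M l := by
    intro l
    have := hM l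
    simp only [glue, l.2, dif_pos] at this
    exact (le_max_right _ _).trans this
  have hMi : ∀ l : {l // ¬ vis l}, K l ≤ M l := by
    intro l
    have := hM l
    simpa only [glue, l.2, dif_neg, not_false_eq_true] using this
  obtain ⟨M₁, hM₁⟩ : ∃ M₁ : {l // vis l} → ℕ, M₁ = fun l => M l.1 := ⟨_, rfl⟩
  obtain ⟨M₀, hM₀⟩ : ∃ M₀ : {l // ¬ vis l} → ℕ, M₀ = fun l => M l.1 := ⟨_, rfl⟩
  have hest : ∀ A B : {l // ¬ vis l} → ℕ, (∀ l, K l ≤ A l) → (∀ l, K l ≤ B l) →
      |D M₁ A B - L| < ε ^ 2 / 16 := by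
    intro A B hA hB
    have := hN₀ (Sum.elim M₁ (Sum.elim A B)) (by
      rintro (l | l | l)
      · simp only [Sum.elim_inl, hM₁]; exact hMv2 l
      · simp only [Sum.elim_inl, Sum.elim_inr]; exact (hK1 l).trans (hA l)
      · simp only [Sum.elim_inr]; exact (hK2 l).trans (hB l))
    rw [hDM, Real.dist_eq] at this
    exact this
  rw [hmain, ← hM₁, ← hM₀, Real.dist_eq, sub_zero]
  have h0 : |avg M₁ fun a => G (glue vis a 0) * V K a| < ε / 2 := by
    have := hP M₁ (fun l => by rw [hM₁]; exact hMv1 l)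
    rw [Real.dist_eq, sub_zero] at this
    simp_rw [hV]
    exact this
  have hKM : ∀ l, K l ≤ M₀ l := fun l => by rw [hM₀]; exact hMi l
  have hsq : avg M₁ (fun a => (V M₀ a - V K a) ^ 2) < ε ^ 2 / 4 := by
    have e : avg M₁ (fun a => (V M₀ a - V K a) ^ 2) = D M₁ M₀ M₀ + D M₁ K K - 2 * D M₁ M₀ K := by
      rw [hD, hD, hD, ← avg_add, ← avg_smul, ← avg_sub]
      congr 1
      funext a
      ring
    have e1 := abs_lt.1 (hest M₀ M₀ hKM hKM)
    have e2 := abs_lt.1 (hest K K (fun _ => le_rfl) (fun _ => le_rfl))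
    have e3 := abs_lt.1 (hest M₀ K hKM (fun _ => le_rfl))
    rw [e]
    linarith [e1.1, e1.2, e2.1, e2.2, e3.1, e3.2]
  have hdiff : |avg M₁ fun a => G (glue vis a 0) * (V M₀ a - V K a)| < ε / 2 := by
    have h1 : |avg M₁ fun a => G (glue vis a 0) * (V M₀ a - V K a)|
        ≤ avg M₁ fun a => ε⁻¹ * (V M₀ a - V K a) ^ 2 + ε / 4 := by
      refine (abs_avg_le _ _).trans (avg_mono _ fun a => ?_)
      rw [abs_mul]
      have h2 : |G (glue vis a 0)| * |V M₀ a - V K a| ≤ |V M₀ a - V K a| :=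
        mul_le_of_le_one_left (abs_nonneg _) (hG1 _)
      refine h2.trans ?_
      have h3 : 0 ≤ ε⁻¹ * (|V M₀ a - V K a| - ε / 2) ^ 2 := by positivity
      have h4 : ε⁻¹ * (|V M₀ a - V K a| - ε / 2) ^ 2
          = ε⁻¹ * (V M₀ a - V K a) ^ 2 - |V M₀ a - V K a| + ε / 4 := by
        rw [sub_sq, sq_abs]
        field_simp
        ring
      linarith
    have h5 : (avg M₁ fun a => ε⁻¹ * (V M₀ a - V K a) ^ 2 + ε / 4)
        ≤ ε⁻¹ * avg M₁ (fun a => (V M₀ a - V K a) ^ 2) + ε / 4 := by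
      rw [avg_add, avg_smul]
      have : avg M₁ (fun _ => ε / 4) ≤ ε / 4 := avg_le_of_le (by positivity) fun _ => le_rfl
      linarith
    have h6 : ε⁻¹ * avg M₁ (fun a => (V M₀ a - V K a) ^ 2) < ε⁻¹ * (ε ^ 2 / 4) :=
      mul_lt_mul_of_pos_left hsq (by positivity)
    have h7 : ε⁻¹ * (ε ^ 2 / 4) = ε / 4 := by field_simp
    linarith
  have hsplit : (avg M₁ fun a => G (glue vis a 0) * V M₀ a)
      = (avg M₁ fun a => G (glue vis a 0) * V K a)
        + avg M₁ fun a => G (glue vis a 0) * (V M₀ a - V K a) := by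
    rw [← avg_add]
    congr 1
    funext a
    ring
  rw [hsplit]
  refine (abs_add_le _ _).trans_lt ?_
  linarith

end Pool.Agent.Lib.Pf720pi
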