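import Pool.Agent.Lib.Pf720pi.Defs

/-!
# Delayed martingale differences along an action
-/

set_option autoImplicit false
set_option linter.unusedSectionVars false

open MeasureTheory Filter Topology
open scoped ENNReal

namespace Pool.Agent.Lib.Pf720pi

variable {G X : Type} [AddCommGroup G]

lemma measurable_comp_of_comap {m : MeasurableSpace X} {f : X → ℝ} (hf : Measurable[m] f)
    (S : X → X) : Measurable[m.comap S] fun x => f (S x) := by
  intro s hs
  exact ⟨f ⁻¹' s, hf hs, rfl⟩

/-- the difference `f - g`, `g` the conditional expectation of the `mP`-measurable function `f`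
given the past at `-p` -/
theorem mdiff_meas {mP : MeasurableSpace X} (W : G → X → X)
    (hWadd : ∀ a b x, W (a + b) x = W a (W b x)) (φ : G →+ ℝ) {p : ℝ} (hp : 0 ≤ p)
    {f g : X → ℝ} (hf : Measurable[mP] f) (hg : Measurable[past W φ mP (-p)] g) (u : G) (s : ℝ)
    (hs : φ u < s) : Measurable[past W φ mP s] fun x => f (W u x) - g (W u x) := by
  refine Measurable.sub ?_ ?_
  · exact (measurable_comp_of_comap hf (W u)).mono (comap_le_past W φ mP hs) le_rfl
  · refine (measurable_comp_of_comap hg (W u)).mono ?_ le_rfl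
    rw [comap_past W hWadd φ mP u]
    exact past_mono W φ mP (by linarith)

theorem mdiff_orth {mP : MeasurableSpace X} {mX : MeasurableSpace X} {μ : Measure X}
    [IsProbabilityMeasure μ] (hP : mP ≤ mX) (W : G → X → X) (hW0 : ∀ x, W 0 x = x)
    (hWadd : ∀ a b x, W (a + b) x = W a (W b x)) (hWmp : ∀ a, MeasurePreserving (W a) μ μ)
    (φ : G →+ ℝ) (p : ℝ) {f g : X → ℝ} (hf : Measurable[mP] f) (hf1 : ∀ x, |f x| ≤ 1)
    (hfg : μ[f | past W φ mP (-p)] =ᵐ[μ] g) (hg : Measurable[past W φ mP (-p)] g)
    (hg1 : ∀ x, |g x| ≤ 1) (u : G)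
    (h : X → ℝ) (hh : Measurable[past W φ mP (φ u - p)] h) (hh1 : ∀ x, |h x| ≤ 1) :
    ∫ x, (f (W u x) - g (W u x)) * h x ∂μ = 0 := by
  have hWm : ∀ a, Measurable (W a) := fun a => (hWmp a).measurable
  have hle : ∀ t, past W φ mP t ≤ mX := past_le W φ hP hWm
  -- translate `h` back
  have hback : Measurable[past W φ mP (-p)] fun x => h (W (-u) x) := by
    have h1 := measurable_comp_of_comap hh (W (-u))
    rw [comap_past W hWadd φ mP (-u), map_neg] at h1
    have e : φ u - p + -φ u = -p := by ring
    rwa [e] at h1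
  have hfm : Measurable f := hf.mono hP le_rfl
  have hgm : Measurable g := hg.mono (hle _) le_rfl
  have hbm : Measurable fun x => h (W (-u) x) := hback.mono (hle _) le_rfl
  have hint : Integrable f μ := Integrable.of_bound hfm.aestronglyMeasurable 1
    (Eventually.of_forall fun x => by simpa using hf1 x)
  have hgint : Integrable g μ := Integrable.of_bound hgm.aestronglyMeasurable 1
    (Eventually.of_forall fun x => by simpa using hg1 x)
  have e1 : ∫ x, (f (W u x) - g (W u x)) * h x ∂μ =
      ∫ x, (f x - g x) * h (W (-u) x) ∂μ := by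
    have h2 : ∀ x, (f (W u x) - g (W u x)) * h x =
        (fun y => (f y - g y) * h (W (-u) y)) (W u x) := by
      intro x
      simp only
      rw [← hWadd, neg_add_cancel, hW0]
    have hmm : Measurable fun y => (f y - g y) * h (W (-u) y) := (hfm.sub hgm).mul hbm
    rw [integral_congr_ae (Eventually.of_forall h2)]
    conv_rhs => rw [← (hWmp u).map_eq]
    rw [integral_map (hWm u).aemeasurable hmm.aestronglyMeasurable]
  rw [e1]
  have hbint : Integrable (fun x => h (W (-u) x)) μ := Integrable.of_bound
    hbm.aestronglyMeasurable 1 (Eventually.of_forall fun x => by simpa using hh1 _)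
  have e2 : ∫ x, f x * h (W (-u) x) ∂μ = ∫ x, g x * h (W (-u) x) ∂μ := by
    have hfh : Integrable (fun x => f x * h (W (-u) x)) μ := Integrable.of_bound
      (hfm.mul hbm).aestronglyMeasurable 1 (Eventually.of_forall fun x => by
        rw [Real.norm_eq_abs, abs_mul]
        exact mul_le_one₀ (hf1 x) (abs_nonneg _) (hh1 _))
    have h3 : μ[fun x => f x * h (W (-u) x) | past W φ mP (-p)] =ᵐ[μ]
        fun x => (μ[f | past W φ mP (-p)]) x * h (W (-u) x) :=
      condExp_mul_of_stronglyMeasurable_right (hback.stronglyMeasurable) hfh hint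
    rw [← integral_condExp (hle (-p)) (f := fun x => f x * h (W (-u) x))]
    refine integral_congr_ae ?_
    filter_upwards [h3, hfg] with x hx1 hx2
    rw [hx1, hx2]
  have e3 : ∀ x, (f x - g x) * h (W (-u) x) = f x * h (W (-u) x) - g x * h (W (-u) x) := fun x =>
    by ring
  simp_rw [e3]
  rw [integral_sub, e2, sub_self]
  · exact Integrable.of_bound (hfm.mul hbm).aestronglyMeasurable 1 (Eventually.of_forall fun x => by
        rw [Real.norm_eq_abs, abs_mul]
        exact mul_le_one₀ (hf1 x) (abs_nonneg _) (hh1 _))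
  · exact Integrable.of_bound (hgm.mul hbm).aestronglyMeasurable 1 (Eventually.of_forall fun x => by
        rw [Real.norm_eq_abs, abs_mul]
        exact mul_le_one₀ (hg1 x) (abs_nonneg _) (hh1 _))

end Pool.Agent.Lib.Pf720pi
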