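import Pool.Agent.Lib.Pf720pi.Core
import Pool.Agent.Lib.Pf720pi.Doubling
import Pool.Agent.Lib.Pf720pi.MDiff

/-!
# Products of tail functions and delayed martingale differences
-/

set_option autoImplicit false
set_option linter.unusedSectionVars false

open Finset MeasureTheory Filter Topology
open scoped ENNReal

namespace Pool.Agent.Lib.Pf720pi

open Pool.Agent.Lib.Pf720ae

/-- convergence of all linear multiple averages of bounded `m`-measurable real functions -/
def LinR {X : Type} {mX : MeasurableSpace X} (μ : Measure X) {d : ℕ}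
    (W : (Fin d → ℤ) → X → X) (m : MeasurableSpace X) : Prop :=
  ∀ (κ : Type) [Fintype κ] [DecidableEq κ] (J : Type) [Fintype J] [DecidableEq J]
    (A : J → (κ → ℤ) →+ (Fin d → ℤ)) (F : J → X → ℝ), (∀ j, Measurable[m] (F j)) →
    (∀ j x, |F j x| ≤ 1) → ∀ᵐ x ∂μ, Cvg fun m : κ → ℕ => ∏ j, F j (W (A j (cz' m)) x)

variable {κ : Type} [Fintype κ] [DecidableEq κ]

/-- extension by zero of the visible coordinates -/
def ext1 (vis : κ → Prop) [DecidablePred vis] : ({l // vis l} → ℤ) →+ (κ → ℤ) where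
  toFun a l := if h : vis l then a ⟨l, h⟩ else 0
  map_zero' := by
    funext l
    by_cases h : vis l <;> simp [h]
  map_add' a b := by
    funext l
    by_cases h : vis l <;> simp [h]

/-- extension by zero of the invisible coordinates -/
def ext0 (vis : κ → Prop) [DecidablePred vis] : ({l // ¬ vis l} → ℤ) →+ (κ → ℤ) where
  toFun a l := if h : vis l then 0 else a ⟨l, h⟩
  map_zero' := by
    funext l
    by_cases h : vis l <;> simp [h]
  map_add' a b := by
    funext l
    by_cases h : vis l <;> simp [h]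

lemma cz'_glue (vis : κ → Prop) [DecidablePred vis] (a : {l // vis l} → ℕ)
    (b : {l // ¬ vis l} → ℕ) : cz' (glue vis a b) = ext1 vis (cz' a) + ext0 vis (cz' b) := by
  funext l
  by_cases h : vis l <;> simp [cz', glue, ext1, ext0, h]

lemma ext1_single (vis : κ → Prop) [DecidablePred vis] (l : {l // vis l}) (t : ℤ) :
    ext1 vis (Pi.single l t) = Pi.single l.1 t := by
  funext l'
  by_cases h : l' = l.1
  · subst h
    simp [ext1, l.2]
  · rw [Pi.single_eq_of_ne h]
    by_cases h' : vis l'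
    · simp only [ext1, AddMonoidHom.coe_mk, ZeroHom.coe_mk, dif_pos h']
      rw [Pi.single_eq_of_ne]
      intro e
      exact h (congrArg Subtype.val e)
    · simp [ext1, h']

lemma cz'_add_single {κ : Type} [DecidableEq κ] (m : κ → ℕ) (l : κ) :
    cz' (m + Pi.single l 1) = cz' m + Pi.single l 1 := by
  funext l'
  by_cases h : l' = l
  · subst h; simp [cz']
  · simp [cz', Pi.single_eq_of_ne h]

lemma addHom_ext_single {G : Type} [AddCommGroup G] {f g : (κ → ℤ) →+ G}
    (h : ∀ l, f (Pi.single l 1) = g (Pi.single l 1)) : f = g := by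
  refine AddMonoidHom.functions_ext' _ _ _ fun l => ?_
  ext
  exact h l

/-- additive maps only see the coordinates on which they do not vanish -/
lemma addHom_congr {G : Type} [AddCommGroup G] (f : (κ → ℤ) →+ G) {a b : κ → ℤ}
    (h : ∀ l, f (Pi.single l 1) ≠ 0 → a l = b l) : f a = f b := by
  have hs : ∀ (l : κ) (t : ℤ), f (Pi.single l t) = t • f (Pi.single l 1) := by
    intro l t
    rw [← map_zsmul, ← Pi.single_smul]
    simp
  have h1 : ∀ c : κ → ℤ, f c = ∑ l, c l • f (Pi.single l 1) := by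
    intro c
    conv_lhs => rw [← Finset.univ_sum_single c]
    rw [map_sum]
    exact Finset.sum_congr rfl fun l _ => hs l _
  rw [h1 a, h1 b]
  refine Finset.sum_congr rfl fun l _ => ?_
  by_cases h0 : f (Pi.single l 1) = 0
  · rw [h0, smul_zero, smul_zero]
  · rw [h l h0]

lemma abs_prod_le_one {ι : Type*} (s : Finset ι) (f : ι → ℝ) (hf : ∀ i, |f i| ≤ 1) :
    |∏ i ∈ s, f i| ≤ 1 := by
  rw [Finset.abs_prod]
  exact Finset.prod_le_one (fun i _ => abs_nonneg _) fun i _ => hf i

lemma measurable_tail_comp {X : Type} {mP : MeasurableSpace X} {d : ℕ}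
    (W : (Fin d → ℤ) → X → X) (hWadd : ∀ a b x, W (a + b) x = W a (W b x))
    (φ : (Fin d → ℤ) →+ ℝ) {f : X → ℝ} (hf : Measurable[tail W φ mP] f) (u : Fin d → ℤ) (s : ℝ) :
    Measurable[past W φ mP s] fun x => f (W u x) := by
  have h1 : Measurable[past W φ mP (s - φ u)] f := hf.mono (tail_le_past W φ mP _) le_rfl
  have h2 := measurable_comp_of_comap h1 (W u)
  rw [comap_past W hWadd φ mP u] at h2
  have e : s - φ u + φ u = s := by ring
  rwa [e] at h2

/-- the data of a delayed martingale difference -/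
def IsMD {X : Type} {mX : MeasurableSpace X} (μ : Measure X) {d : ℕ} (W : (Fin d → ℤ) → X → X)
    (φ : (Fin d → ℤ) →+ ℝ) (mP : MeasurableSpace X) (F : X → ℝ) : Prop :=
  ∃ (p : ℕ) (f g : X → ℝ), Measurable[mP] f ∧ (∀ x, |f x| ≤ 1) ∧
    Measurable[past W φ mP (-(p : ℝ))] g ∧ (∀ x, |g x| ≤ 1) ∧
    μ[f | past W φ mP (-(p : ℝ))] =ᵐ[μ] g ∧ F = fun x => (f x - g x) / 2

theorem base_case {X : Type} {mP : MeasurableSpace X} {mX : MeasurableSpace X} {μ : Measure X}
    [IsProbabilityMeasure μ] {d : ℕ} (hP : mP ≤ mX) (W : (Fin d → ℤ) → X → X)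
    (hW0 : ∀ x, W 0 x = x)
    (hWadd : ∀ a b x, W (a + b) x = W a (W b x)) (hWmp : ∀ a, MeasurePreserving (W a) μ μ)
    (φ : (Fin d → ℤ) →+ ℝ) (hφ : Function.Injective φ)
    (hH : LinR μ W (tail W φ mP)) {J : Type} [Fintype J] [DecidableEq J]
    (A : J → (κ → ℤ) →+ (Fin d → ℤ)) (hA0 : ∀ j, A j ≠ 0) (hAinj : Function.Injective A)
    (F : J → X → ℝ)
    (hF : ∀ j, (Measurable[tail W φ mP] (F j) ∧ ∀ x, |F j x| ≤ 1) ∨ IsMD μ W φ mP (F j)) :
    ∀ᵐ x ∂μ, Cvg fun m : κ → ℕ => ∏ j, F j (W (A j (cz' m)) x) := by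
  classical
  set tt : J → Prop := fun j => Measurable[tail W φ mP] (F j) ∧ ∀ x, |F j x| ≤ 1 with htt
  by_cases hall : ∀ j, tt j
  · exact hH κ J A F (fun j => (hall j).1) (fun j => (hall j).2)
  push Not at hall
  obtain ⟨j₀, hj₀⟩ := hall
  have hWm : ∀ a, Measurable (W a) := fun a => (hWmp a).measurable
  -- the martingale differences
  have hmd : ∀ j : {j // ¬ tt j}, IsMD μ W φ mP (F j.1) := fun j => (hF j.1).resolve_left j.2
  choose p f g hfm hf1 hgm hg1 hfg hFe using hmd
  have hFe' : ∀ (j : {j // ¬ tt j}) x, F j.1 x = (f j x - g j x) / 2 := fun j x =>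
    congrFun (hFe j) x
  obtain ⟨pm, hpm⟩ : ∃ pm : ℕ, ∀ j, p j ≤ pm := ⟨Finset.univ.sup p, fun j =>
    Finset.le_sup (Finset.mem_univ j)⟩
  have hF1 : ∀ j x, |F j x| ≤ 1 := by
    intro j x
    by_cases h : tt j
    · exact h.2 x
    · rw [hFe' ⟨j, h⟩ x, abs_div, abs_of_pos (by norm_num : (0 : ℝ) < 2)]
      have h1 := abs_sub (f ⟨j, h⟩ x) (g ⟨j, h⟩ x)
      have h2 := hf1 ⟨j, h⟩ x
      have h3 := hg1 ⟨j, h⟩ x
      rw [div_le_one (by norm_num)]
      linarith
  -- visible coordinates
  set vis : κ → Prop := fun l => ∃ j : {j // ¬ tt j}, A j.1 (Pi.single l 1) ≠ 0 with hvis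
  have hnv : ∀ l, ¬ vis l → ∀ j : {j // ¬ tt j}, A j.1 (Pi.single l 1) = 0 := by
    intro l hl j
    by_contra h
    exact hl ⟨j, h⟩
  have hφ0 : ∀ v, φ v = 0 ↔ v = 0 := fun v => by
    constructor
    · intro h
      exact hφ (by rw [h, map_zero])
    · rintro rfl
      exact map_zero φ
  have hne : Nonempty {l // vis l} := by
    by_contra h
    rw [not_nonempty_iff] at h
    refine hA0 j₀ (addHom_ext_single fun l => ?_)
    have hl : ¬ vis l := fun hl => h.false ⟨l, hl⟩
    rw [hnv l hl ⟨j₀, hj₀⟩]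
    rfl
  set ψ : {j // ¬ tt j} → ({l // vis l} → ℤ) →+ ℝ := fun j => φ.comp ((A j.1).comp (ext1 vis))
    with hψ
  have hψa : ∀ j a, ψ j a = φ (A j.1 (ext1 vis a)) := fun j a => rfl
  have hext0 : ∀ (j : {j // ¬ tt j}) (b : {l // ¬ vis l} → ℤ), A j.1 (ext0 vis b) = 0 := by
    intro j b
    refine (addHom_congr (A j.1) (a := ext0 vis b) (b := 0) fun l hl => ?_).trans
      (map_zero (A j.1))
    have hv : vis l := ⟨j, hl⟩
    simp [ext0, hv]
  have hcore : ∀ M₀ : {l // ¬ vis l} → ℕ, ∀ᵐ x ∂μ,
      Tendsto (fun M₁ : {l // vis l} → ℕ => avg M₁ fun m₁ =>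
        (∏ j : {j // ¬ tt j}, F j.1 (W (A j.1 (cz' (glue vis m₁ 0))) x)) *
          avg M₀ fun m₀ => ∏ j : {j // tt j}, F j.1 (W (A j.1 (cz' (glue vis m₁ m₀))) x))
        atTop (𝓝 0) := by
    intro M₀
    refine core_ae (past W φ mP) (past_mono W φ mP) (past_le W φ hP hWm) ψ ?_ ?_ (pm : ℝ)
      (by positivity) (fun j m₁ x => F j.1 (W (A j.1 (cz' (glue vis m₁ 0))) x)) ?_ ?_ ?_ ?_
      (fun m₁ x => avg M₀ fun m₀ =>
        ∏ j : {j // tt j}, F j.1 (W (A j.1 (cz' (glue vis m₁ m₀))) x)) ?_ ?_
    · -- distinct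
      intro i j hij hEq
      have hne' : A i.1 ≠ A j.1 := fun h => hij (Subtype.ext (hAinj h))
      refine hne' (addHom_ext_single fun l => ?_)
      by_cases hl : vis l
      · have h1 := DFunLike.congr_fun hEq (Pi.single ⟨l, hl⟩ 1)
        rw [hψa, hψa, ext1_single] at h1
        exact hφ h1
      · rw [hnv l hl i, hnv l hl j]
    · rintro ⟨l, hl⟩
      obtain ⟨j, hj⟩ := hl
      refine ⟨j, ?_⟩
      rw [hψa, ext1_single]
      intro h
      exact hj ((hφ0 _).1 h)
    · intro j m x
      exact hF1 _ _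
    · intro j m s hs
      have h1 := mdiff_meas W hWadd φ (p := (p j : ℝ)) (by positivity) (hfm j) (hgm j)
        (A j.1 (cz' (glue vis m 0))) s (by
          have e : φ (A j.1 (cz' (glue vis m 0))) = ψ j (cz' m) := by
            rw [cz'_glue, map_add, hext0, add_zero]
            rfl
          rw [e]; exact hs)
      have h2 := h1.div_const 2
      have e : (fun x => F j.1 (W (A j.1 (cz' (glue vis m 0))) x)) = fun x =>
          (f j (W (A j.1 (cz' (glue vis m 0))) x) - g j (W (A j.1 (cz' (glue vis m 0))) x)) / 2 := by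
        funext x
        exact hFe' j _
      rw [e]
      exact h2
    · intro j m h hh hh1
      have e : φ (A j.1 (cz' (glue vis m 0))) = ψ j (cz' m) := by
        rw [cz'_glue, map_add, hext0, add_zero]
        rfl
      have hh' : Measurable[past W φ mP (φ (A j.1 (cz' (glue vis m 0))) - (p j : ℝ))] h := by
        refine hh.mono (past_mono W φ mP ?_) le_rfl
        rw [e]
        have : (p j : ℝ) ≤ pm := by exact_mod_cast hpm j
        linarith
      have h1 := mdiff_orth hP W hW0 hWadd hWmp φ (p j : ℝ) (hfm j) (hf1 j) (hfg j) (hgm j)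
        (hg1 j) (A j.1 (cz' (glue vis m 0))) h hh' hh1
      have e2 : ∀ x, F j.1 (W (A j.1 (cz' (glue vis m 0))) x) * h x = (1 / 2) *
          ((f j (W (A j.1 (cz' (glue vis m 0))) x) - g j (W (A j.1 (cz' (glue vis m 0))) x)) *
            h x) := by
        intro x
        rw [hFe' j]
        ring
      simp only [e2]
      rw [integral_const_mul, h1, mul_zero]
    · intro j l hl m x
      have h0 : A j.1 (Pi.single l.1 1) = 0 := by
        rw [hψa, ext1_single] at hl
        exact (hφ0 _).1 hl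
      have e : A j.1 (cz' (glue vis (m + Pi.single l 1) 0)) = A j.1 (cz' (glue vis m 0)) := by
        rw [cz'_glue, cz'_glue, cz'_add_single, map_add (ext1 vis), ext1_single, map_add, map_add,
          h0, add_zero, map_add]
      rw [e]
    · intro m x
      exact abs_avg_le_of_le zero_le_one fun m₀ => abs_prod_le_one _ _ fun j => hF1 _ _
    · intro m s
      unfold avg
      refine Measurable.const_mul (Finset.measurable_fun_sum _ fun m₀ _ => ?_) _
      refine Finset.measurable_fun_prod _ fun j _ => ?_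
      exact measurable_tail_comp W hWadd φ j.2.1 _ s
  -- the doubled family
  have hdbl := hH ({l // vis l} ⊕ ({l // ¬ vis l} ⊕ {l // ¬ vis l})) ({j // tt j} ⊕ {j // tt j})
    (Sum.elim
      (fun j => (A j.1).comp
        { toFun := fun m => ext1 vis (fun l => m (Sum.inl l)) +
            ext0 vis (fun l => m (Sum.inr (Sum.inl l)))
          map_zero' := by
            funext l
            by_cases h : vis l <;> simp [ext1, ext0]
          map_add' := fun a b => by
            funext l
            by_cases h : vis l <;> simp [ext1, ext0, h] })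
      (fun j => (A j.1).comp
        { toFun := fun m => ext1 vis (fun l => m (Sum.inl l)) +
            ext0 vis (fun l => m (Sum.inr (Sum.inr l)))
          map_zero' := by
            funext l
            by_cases h : vis l <;> simp [ext1, ext0]
          map_add' := fun a b => by
            funext l
            by_cases h : vis l <;> simp [ext1, ext0, h] }))
    (Sum.elim (fun j => F j.1) (fun j => F j.1))
    (by rintro (j | j) <;> exact j.2.1) (by rintro (j | j) <;> exact j.2.2)
  filter_upwards [ae_all_iff.2 hcore, hdbl] with x hx1 hx2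
  have h0 := doubling vis (fun m => ∏ j : {j // ¬ tt j}, F j.1 (W (A j.1 (cz' m)) x))
    (fun m => ∏ j : {j // tt j}, F j.1 (W (A j.1 (cz' m)) x))
    (fun m => abs_prod_le_one _ _ fun j => hF1 _ _)
    (fun m => abs_prod_le_one _ _ fun j => hF1 _ _) ?_ (fun M₀ _ => hx1 M₀) ?_
  · refine ⟨0, h0.congr fun M => ?_⟩
    refine avg_congr fun m _ => ?_
    rw [mul_comm]
    exact Fintype.prod_subtype_mul_prod_subtype tt fun j => F j (W (A j (cz' m)) x)
  · intro m m' hmm
    refine Finset.prod_congr rfl fun j _ => ?_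
    have e : A j.1 (cz' m) = A j.1 (cz' m') := by
      refine addHom_congr _ fun l hl => ?_
      have hv : vis l := ⟨j, hl⟩
      simp [cz', hmm l hv]
    rw [e]
  · refine hx2.congr fun m => ?_
    rw [Fintype.prod_sum_type]
    congr 1
    · refine Finset.prod_congr rfl fun j _ => ?_
      rw [cz'_glue]
      rfl
    · refine Finset.prod_congr rfl fun j _ => ?_
      rw [cz'_glue]
      rfl

end Pool.Agent.Lib.Pf720pi
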