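import Pool.Agent.Lib.Pf720pi.Closure
import Pool.Agent.Lib.Pf720ae.Lift

/-!
# The Pinsker reduction
-/

set_option autoImplicit false
set_option linter.unusedSectionVars false

open Finset MeasureTheory Filter Topology
open scoped ENNReal

namespace Pool.Agent.Lib.Pf720pi

open Pool.Agent.Lib.Pf720ae

/-- an injective additive map from `ℤ^d` to `ℝ` -/
lemma exists_injective (d : ℕ) : ∃ φ : (Fin d → ℤ) →+ ℝ, Function.Injective φ := by
  induction d with
  | zero => exact ⟨0, fun a b _ => Subsingleton.elim a b⟩
  | succ d ih =>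
    obtain ⟨φ, hφ⟩ := ih
    obtain ⟨α, hα⟩ : ∃ α : ℝ, α ∉ Set.range fun p : (Fin d → ℤ) × ℤ => φ p.1 / (p.2 : ℝ) := by
      by_contra h
      push Not at h
      have h1 : (Set.range fun p : (Fin d → ℤ) × ℤ => φ p.1 / (p.2 : ℝ)).Countable :=
        Set.countable_range _
      have h2 : (Set.univ : Set ℝ).Countable := h1.mono fun x _ => h x
      exact Cardinal.not_countable_real h2
    refine ⟨{ toFun := fun u => φ (fun i => u i.succ) - (u 0 : ℝ) * α
              map_zero' := by
                have : (fun i : Fin d => (0 : Fin (d + 1) → ℤ) i.succ) = 0 := rfl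
                rw [this, map_zero]
                simp
              map_add' := fun a b => by
                have : (fun i : Fin d => (a + b) i.succ) =
                    (fun i => a i.succ) + fun i => b i.succ := rfl
                rw [this, map_add, Pi.add_apply]
                push_cast
                ring }, ?_⟩
    rw [injective_iff_map_eq_zero]
    intro u hu
    have hu' : φ (fun i => u i.succ) - (u 0 : ℝ) * α = 0 := hu
    by_cases h0 : u 0 = 0
    · rw [h0, Int.cast_zero, zero_mul, sub_zero] at hu'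
      have h1 : (fun i : Fin d => u i.succ) = 0 := hφ (by rw [hu', map_zero])
      funext i
      refine Fin.cases h0 (fun j => ?_) i
      exact congrFun h1 j
    · exfalso
      apply hα
      refine ⟨(fun i => u i.succ, u 0), ?_⟩
      have h0' : (u 0 : ℝ) ≠ 0 := by exact_mod_cast h0
      simp only
      field_simp
      linarith

/-- unrestricted convergence of all linear multiple averages of the bounded functions that are
a.e. equal to an `m`-measurable function -/
def LinC {X : Type} {mX : MeasurableSpace X} (μ : Measure X) {d : ℕ} (T : Fin d → Equiv.Perm X)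
    (m : MeasurableSpace X) : Prop :=
  ∀ (k n : ℕ) (A : Fin n → Matrix (Fin d) (Fin k) ℤ) (c : Fin n → Fin d → ℤ) (f : Fin n → X → ℂ),
    (∀ j, MemLp (f j) ⊤ μ ∧ AEStronglyMeasurable[m] (f j) μ) →
    ∀ᵐ x ∂μ, ∃ L : ℂ, Tendsto (fun M : Fin k → ℕ => (∏ l, (M l : ℂ))⁻¹ *
      ∑ m ∈ Fintype.piFinset (fun l => Finset.Icc 1 (M l)),
        ∏ j, f j (pw T (fun i => (A j).mulVec (fun l => (m l : ℤ)) i + c j i) x))
      atTop (𝓝 L)

/-- reindexing the averages -/
lemma avg_reindex {κ κ' : Type} [Fintype κ] [DecidableEq κ] [Fintype κ'] [DecidableEq κ']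
    (e : κ ≃ κ') (M : κ → ℕ) (Φ : (κ → ℕ) → ℝ) :
    avg M Φ = avg (fun l => M (e.symm l)) (fun m => Φ (fun l => m (e l))) := by
  unfold avg
  congr 1
  · congr 1
    exact Fintype.prod_equiv e _ _ (fun l => by simp)
  · refine Finset.sum_bij' (fun m _ => fun l => m (e.symm l)) (fun m _ => fun l => m (e l))
      ?_ ?_ ?_ ?_ ?_
    · intro m hm
      rw [mem_box] at hm ⊢
      exact fun l => hm _
    · intro m hm
      rw [mem_box] at hm ⊢
      intro l
      simpa using hm (e l)
    · intro m _
      funext l; simp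
    · intro m _
      funext l; simp
    · intro m _
      simp

lemma linR_of_linC {X : Type} {m : MeasurableSpace X} {mX : MeasurableSpace X} {μ : Measure X}
    [IsProbabilityMeasure μ] (hm : m ≤ mX) {d : ℕ} (T : Fin d → Equiv.Perm X)
    (hC : LinC μ T m) : LinR μ (fun e x => pw T e x) m := by
  intro κ _ _ J _ _ A F hFm hF1
  classical
  set k := Fintype.card κ
  set n := Fintype.card J
  set eκ : κ ≃ Fin k := Fintype.equivFin κ
  set eJ : J ≃ Fin n := Fintype.equivFin J
  set A' : Fin n → Matrix (Fin d) (Fin k) ℤ := fun j i l =>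
    A (eJ.symm j) (Pi.single (eκ.symm l) 1) i with hA'
  set c : Fin n → Fin d → ℤ := fun j => -(A' j).mulVec 1 with hc
  have hexp : ∀ (j : J) (v : κ → ℤ) (i : Fin d),
      A j v i = ∑ l, v l * A j (Pi.single l 1) i := by
    intro j v i
    have h1 : A j v = ∑ l, v l • A j (Pi.single l 1) := by
      conv_lhs => rw [← Finset.univ_sum_single v]
      rw [map_sum]
      refine Finset.sum_congr rfl fun l _ => ?_
      rw [← map_zsmul, ← Pi.single_smul]
      simp
    rw [h1, Finset.sum_apply]
    exact Finset.sum_congr rfl fun l _ => by simp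
  have h1 := hC k n A' c (fun j x => ((F (eJ.symm j) x : ℝ) : ℂ)) (fun j => ⟨?_, ?_⟩)
  · filter_upwards [h1] with x hx
    obtain ⟨L, hL⟩ := hx
    have h2 := (Complex.continuous_re.tendsto L).comp hL
    have hre : Tendsto (fun M : κ → ℕ => fun l : Fin k => M (eκ.symm l)) atTop atTop := by
      rw [tendsto_atTop]
      intro b
      filter_upwards [eventually_ge_atTop (fun l : κ => b (eκ l))] with M hM l
      have := hM (eκ.symm l)
      simpa using this
    refine ⟨L.re, (h2.comp hre).congr fun M => ?_⟩
    rw [avg_reindex eκ M]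
    simp only [Function.comp]
    rw [sum_Icc_eq]
    unfold avg Pool.Agent.Lib.Pf720ae.box
    have e1 : ∀ m : Fin k → ℕ, ∏ j : Fin n, ((F (eJ.symm j)
        (pw T (fun i => (A' j).mulVec (fun l => (((m + 1) l : ℕ) : ℤ)) i + c j i) x) : ℝ) : ℂ) =
        ((∏ j, F j (pw T (A j (cz' fun l => m (eκ l))) x) : ℝ) : ℂ) := by
      intro m
      rw [← Complex.ofReal_prod]
      congr 1
      refine Fintype.prod_equiv eJ.symm _ _ fun j => ?_
      congr 3
      funext i
      have e2 : (fun l => (((m + 1) l : ℕ) : ℤ)) = (fun l => ((m l : ℕ) : ℤ)) + 1 := by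
        funext l
        simp
      rw [e2, Matrix.mulVec_add, hexp]
      simp only [hc, Pi.add_apply, Pi.neg_apply, add_neg_cancel_right]
      unfold Matrix.mulVec dotProduct
      refine Fintype.sum_equiv eκ.symm _ _ fun l => ?_
      simp only [hA', cz', Equiv.apply_symm_apply]
      rw [mul_comm]
    simp only [e1]
    rw [← Complex.ofReal_sum]
    have e3 : (∏ l : Fin k, ((M (eκ.symm l) : ℕ) : ℂ))⁻¹ =
        (((∏ l : Fin k, ((M (eκ.symm l) : ℕ) : ℝ))⁻¹ : ℝ) : ℂ) := by
      push_cast
      rfl
    rw [e3, ← Complex.ofReal_mul, Complex.ofReal_re]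
  · refine MemLp.of_bound ?_ 1 (Eventually.of_forall fun x => ?_)
    · exact (Complex.measurable_ofReal.comp ((hFm _).mono hm le_rfl)).aestronglyMeasurable
    · rw [Complex.norm_real]
      exact hF1 _ x
  · exact (Complex.measurable_ofReal.comp (hFm _)).aestronglyMeasurable

theorem linC_of_linR {X : Type} {mX : MeasurableSpace X} {μ : Measure X}
    [IsProbabilityMeasure μ] {d : ℕ} (T : Fin d → Equiv.Perm X)
    (hT : ∀ i, Measurable (T i) ∧ Measurable (T i).symm ∧ MeasurePreserving (T i) μ μ)
    (hcomm : ∀ i i', T i * T i' = T i' * T i)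
    (hR : LinR μ (fun e x => pw T e x) mX) : LinC μ T mX := by
  intro k n A c f hf
  set c' : Fin n → Fin d → ℤ := fun j => (A j).mulVec 1 + c j with hc'
  have h1 := lift_complex (μ := μ) (κ := Fin k)
    (fun j m => pw T ((A j).mulVec (cz' m) + c' j)) (fun j m => mp_pw T hT _) ?_ f
    (fun j => (hf j).1)
  · filter_upwards [h1] with x hx
    obtain ⟨L, hL⟩ := hx
    refine ⟨L, hL.congr fun M => ?_⟩
    rw [sum_Icc_eq]
    congr 1
    refine Finset.sum_congr rfl fun m _ => Finset.prod_congr rfl fun j _ => ?_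
    have e : ((A j).mulVec (cz' m) + c' j)
        = fun i => (A j).mulVec (fun l => (((m + 1) l : ℕ) : ℤ)) i + c j i := by
      funext i
      have e2 : (fun l => (((m + 1) l : ℕ) : ℤ)) = cz' m + 1 := by
        funext l
        simp [cz']
      rw [e2, Matrix.mulVec_add]
      simp only [hc', Pi.add_apply]
      ring
    rw [e]
  · intro F hFm hF1
    have h2 := hR (Fin k) (Fin n)
      (fun j => (A j).mulVecLin.toAddMonoidHom)
      (fun j x => F j (pw T (c' j) x))
      (fun j => (hFm j).comp (mp_pw T hT _).measurable) (fun j x => hF1 j _)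
    filter_upwards [h2] with x hx
    refine hx.congr fun m => Finset.prod_congr rfl fun j _ => ?_
    rw [add_comm ((A j).mulVec (cz' m)) (c' j), pw_add T hcomm (c' j)]
    rfl

/-- the Pinsker reduction -/
theorem pinsker_reduction {X : Type} {mX : MeasurableSpace X} {μ : Measure X}
    [IsProbabilityMeasure μ] {d : ℕ} (T : Fin d → Equiv.Perm X)
    (hT : ∀ i, Measurable (T i) ∧ Measurable (T i).symm ∧ MeasurePreserving (T i) μ μ)
    (hcomm : ∀ i i', T i * T i' = T i' * T i) :
    LinC μ T mX ↔ LinC μ T (pinskerW μ fun e x => pw T e x) := by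
  constructor
  · intro h k n A c f hf
    exact h k n A c f fun j => ⟨(hf j).1, (hf j).1.1⟩
  · intro h
    refine linC_of_linR T hT hcomm ?_
    obtain ⟨φ, hφ⟩ := exists_injective d
    refine linR_of_pinsker (fun e x => pw T e x) (fun x => by rw [pw_zero]; rfl)
      (fun a b x => by rw [pw_add T hcomm]; rfl) (fun a => mp_pw T hT a) φ hφ
      (linR_of_linC ?_ T h)
    refine MeasurableSpace.generateFrom_le ?_
    rintro s ⟨hs, -⟩
    exact hs

end Pool.Agent.Lib.Pf720pi
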