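import Mathlib

/-!
# Reverse martingale convergence in mean square
-/

set_option autoImplicit false
set_option linter.unusedSectionVars false

open MeasureTheory Filter Topology
open scoped ENNReal

namespace Pool.Agent.Lib.Pf720pi

/-- clamp to `[-1, 1]` -/
private def cl (y : ℝ) : ℝ := max (-1) (min 1 y)

private lemma abs_cl (y : ℝ) : |cl y| ≤ 1 := by
  unfold cl
  rw [abs_le]
  exact ⟨le_max_left _ _, max_le (by norm_num) (min_le_left _ _)⟩

private lemma cl_eq {y : ℝ} (h : |y| ≤ 1) : cl y = y := by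
  unfold cl
  rw [abs_le] at h
  rw [min_eq_right h.2, max_eq_right h.1]

private lemma measurable_cl : Measurable cl :=
  measurable_const.max (measurable_const.min measurable_id)

private lemma eLpNorm_two {X : Type} {mX : MeasurableSpace X} {μ : Measure X} {y : X → ℝ}
    (hy : MemLp y 2 μ) : eLpNorm y 2 μ = ENNReal.ofReal (√(∫ x, y x ^ 2 ∂μ)) := by
  rw [MemLp.eLpNorm_eq_integral_rpow_norm two_ne_zero ENNReal.ofNat_ne_top hy]
  congr 1
  rw [Real.sqrt_eq_rpow]
  simp only [ENNReal.toReal_ofNat, one_div]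
  congr 1
  refine integral_congr_ae (Eventually.of_forall fun x => ?_)
  simp only [Real.norm_eq_abs]
  rw [show (2 : ℝ) = ((2 : ℕ) : ℝ) by norm_num, Real.rpow_natCast, sq_abs]

private lemma lintegral_two {X : Type} {mX : MeasurableSpace X} {μ : Measure X} {y : X → ℝ} :
    ∫⁻ x, (ENNReal.ofReal |y x|) ^ 2 ∂μ = eLpNorm y 2 μ ^ 2 := by
  have h := eLpNorm_nnreal_pow_eq_lintegral (μ := μ) (f := y) (p := 2) two_ne_zero
  have h2 : ((2 : NNReal) : ℝ) = ((2 : ℕ) : ℝ) := by norm_num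
  rw [h2] at h
  simp only [ENNReal.rpow_natCast, Real.enorm_eq_ofReal_abs] at h
  rw [← h]
  norm_num

theorem exists_tail_limit {X : Type} {F : ℕ → MeasurableSpace X} {mX : MeasurableSpace X}
    {μ : Measure X} [IsProbabilityMeasure μ] (hanti : Antitone F) (hle : ∀ n, F n ≤ mX)
    (f : X → ℝ) (hf : Measurable f) (hf1 : ∀ x, |f x| ≤ 1) :
    ∃ (g : ℕ → X → ℝ) (f' : X → ℝ), (∀ n, Measurable[F n] (g n)) ∧ (∀ n x, |g n x| ≤ 1) ∧
      (∀ n, μ[f | F n] =ᵐ[μ] g n) ∧ Measurable[⨅ n, F n] f' ∧ (∀ x, |f' x| ≤ 1) ∧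
      Tendsto (fun n => ∫⁻ x, (ENNReal.ofReal |g n x - f' x|) ^ 2 ∂μ) atTop (𝓝 0) := by
  classical
  have hbd : ∀ n, ∀ᵐ x ∂μ, |(μ[f | F n]) x| ≤ 1 := fun n =>
    ae_bdd_abs_condExp_of_ae_bdd_abs (Eventually.of_forall hf1)
  obtain ⟨g, hgdef⟩ : ∃ g : ℕ → X → ℝ, ∀ n x, g n x = cl ((μ[f | F n]) x) := ⟨_, fun n x => rfl⟩
  have hgm : ∀ n, Measurable[F n] (g n) := fun n => by
    have h : g n = fun x => cl ((μ[f | F n]) x) := funext (hgdef n)
    rw [h]
    exact measurable_cl.comp (stronglyMeasurable_condExp (μ := μ) (f := f) (m := F n)).measurable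
  have hgm' : ∀ n, Measurable (g n) := fun n => (hgm n).mono (hle n) le_rfl
  have hg1 : ∀ n x, |g n x| ≤ 1 := fun n x => by rw [hgdef]; exact abs_cl _
  have hge : ∀ n, μ[f | F n] =ᵐ[μ] g n := fun n => by
    filter_upwards [hbd n] with x hx
    rw [hgdef, cl_eq hx]
  have hbdd : ∀ (y : X → ℝ), Measurable y → (∀ x, |y x| ≤ 4) → Integrable y μ := fun y hy h =>
    Integrable.of_bound hy.aestronglyMeasurable 4 (Eventually.of_forall fun x => by
      rw [Real.norm_eq_abs]; exact h x)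
  have hint : ∀ n, Integrable (g n) μ := fun n =>
    hbdd _ (hgm' n) fun x => (hg1 n x).trans (by norm_num)
  have hmul1 : ∀ m n x, |g m x * g n x| ≤ 1 := fun m n x => by
    rw [abs_mul]
    exact mul_le_one₀ (hg1 m x) (abs_nonneg _) (hg1 n x)
  have hintm : ∀ m n, Integrable (fun x => g m x * g n x) μ := fun m n =>
    hbdd _ ((hgm' m).mul (hgm' n)) fun x => (hmul1 m n x).trans (by norm_num)
  have hkey : ∀ m n, m ≤ n → ∫ x, g n x * g m x ∂μ = ∫ x, g n x * g n x ∂μ := by
    intro m n hmn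
    have h1 : μ[g m | F n] =ᵐ[μ] g n := by
      have h0 : μ[g m | F n] =ᵐ[μ] μ[μ[f | F m] | F n] := condExp_congr_ae (hge m).symm
      exact h0.trans ((condExp_condExp_of_le (hanti hmn) (hle m)).trans (hge n))
    have h2 : μ[g n * g m | F n] =ᵐ[μ] g n * μ[g m | F n] :=
      condExp_mul_of_stronglyMeasurable_left (hgm n).stronglyMeasurable (hintm n m) (hint m)
    calc ∫ x, g n x * g m x ∂μ = ∫ x, (g n * g m) x ∂μ := rfl
      _ = ∫ x, (μ[g n * g m | F n]) x ∂μ := (integral_condExp (hle n)).symm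
      _ = ∫ x, g n x * g n x ∂μ := integral_congr_ae (by
          filter_upwards [h1, h2] with x h1 h2
          rw [h2, Pi.mul_apply, h1])
  set a : ℕ → ℝ := fun n => ∫ x, g n x * g n x ∂μ with ha
  have hsq : ∀ m n, m ≤ n → ∫ x, (g m x - g n x) ^ 2 ∂μ = a m - a n := by
    intro m n hmn
    have h1 : ∀ x, (g m x - g n x) ^ 2 = (g m x * g m x + g n x * g n x) - 2 * (g n x * g m x) :=
      fun x => by ring
    have e1 : ∫ x, (g m x - g n x) ^ 2 ∂μ =
        ∫ x, ((g m x * g m x + g n x * g n x) - 2 * (g n x * g m x)) ∂μ :=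
      integral_congr_ae (Eventually.of_forall h1)
    have e2 : ∫ x, ((g m x * g m x + g n x * g n x) - 2 * (g n x * g m x)) ∂μ =
        ∫ x, (g m x * g m x + g n x * g n x) ∂μ - ∫ x, 2 * (g n x * g m x) ∂μ :=
      integral_sub ((hintm m m).add (hintm n n)) ((hintm n m).const_mul 2)
    have e3 : ∫ x, (g m x * g m x + g n x * g n x) ∂μ =
        ∫ x, g m x * g m x ∂μ + ∫ x, g n x * g n x ∂μ := integral_add (hintm m m) (hintm n n)
    rw [e1, e2, e3, integral_const_mul, hkey m n hmn]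
    simp only [ha]
    ring
  have haanti : Antitone a := fun m n hmn => by
    have h1 : 0 ≤ ∫ x, (g m x - g n x) ^ 2 ∂μ := integral_nonneg fun x => sq_nonneg _
    rw [hsq m n hmn] at h1
    linarith
  have ha0 : ∀ n, 0 ≤ a n := fun n => integral_nonneg fun x => mul_self_nonneg _
  obtain ⟨L, hL⟩ : ∃ L, Tendsto a atTop (𝓝 L) :=
    ⟨_, tendsto_atTop_ciInf haanti ⟨0, by rintro _ ⟨n, rfl⟩; exact ha0 n⟩⟩
  have hLle : ∀ n, L ≤ a n := fun n => haanti.le_of_tendsto hL n
  have hmem : ∀ n, MemLp (g n) 2 μ := fun n =>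
    MemLp.of_bound (hgm' n).aestronglyMeasurable 1 (Eventually.of_forall fun x => by
      rw [Real.norm_eq_abs]; exact hg1 n x)
  have hdist : ∀ m n, dist ((hmem m).toLp (g m)) ((hmem n).toLp (g n)) =
      √(∫ x, (g m x - g n x) ^ 2 ∂μ) := by
    intro m n
    rw [dist_eq_norm, ← MemLp.toLp_sub, Lp.norm_toLp, eLpNorm_two ((hmem m).sub (hmem n)),
      ENNReal.toReal_ofReal (Real.sqrt_nonneg _)]
    rfl
  have hcauchy : CauchySeq fun n => (hmem n).toLp (g n) := by
    refine cauchySeq_of_le_tendsto_0 (fun N => √(a N - L)) ?_ ?_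
    · have hmain : ∀ n m N, N ≤ n → n ≤ m →
          dist ((hmem n).toLp (g n)) ((hmem m).toLp (g m)) ≤ √(a N - L) := by
        intro n m N hn hm
        rw [hdist, hsq n m hm]
        exact Real.sqrt_le_sqrt (by linarith [haanti hn, hLle m])
      intro n m N hn hm
      rcases le_total n m with h | h
      · exact hmain n m N hn h
      · rw [dist_comm]
        exact hmain m n N hm h
    · have h1 : Tendsto (fun N => √(a N - L)) atTop (𝓝 (√(L - L))) :=
        (Real.continuous_sqrt.tendsto _).comp (hL.sub_const L)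
      rwa [sub_self, Real.sqrt_zero] at h1
  obtain ⟨G, hG⟩ := cauchySeq_tendsto_of_complete hcauchy
  have hmeasure := tendstoInMeasure_of_tendsto_Lp hG
  obtain ⟨ns, hns, hae⟩ := hmeasure.exists_seq_tendsto_ae
  have hcoe : ∀ᵐ x ∂μ, ∀ n, ((hmem n).toLp (g n) : X → ℝ) x = g n x :=
    ae_all_iff.2 fun n => (hmem n).coeFn_toLp
  obtain ⟨f', hf'⟩ : ∃ f' : X → ℝ, ∀ x, f' x = cl (limsup (fun k => g (ns k) x) atTop) :=
    ⟨_, fun x => rfl⟩
  have hf'ae : ∀ᵐ x ∂μ, f' x = G x := by
    filter_upwards [hae, hcoe] with x hx hc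
    have h1 : Tendsto (fun k => g (ns k) x) atTop (𝓝 (G x)) := by
      refine hx.congr fun k => hc _
    rw [hf', h1.limsup_eq]
    refine cl_eq ?_
    exact le_of_tendsto h1.abs (Eventually.of_forall fun k => hg1 _ x)
  refine ⟨g, f', hgm, hg1, hge, ?_, fun x => by rw [hf']; exact abs_cl _, ?_⟩
  · have h1 : ∀ N, Measurable[F N] f' := by
      intro N
      have h2 : f' = fun x => cl (limsup (fun k => g (ns (k + N)) x) atTop) := by
        funext x
        rw [hf']
        congr 1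
        exact (limsup_nat_add (fun k => g (ns k) x) N).symm
      rw [h2]
      have h3 : ∀ k, Measurable[F N] (g (ns (k + N))) := fun k =>
        (hgm _).mono (hanti ((Nat.le_add_left N k).trans (hns.id_le _))) le_rfl
      exact measurable_cl.comp (Measurable.limsup h3)
    intro s hs
    rw [MeasurableSpace.measurableSet_iInf]
    exact fun N => h1 N hs
  · have h1 : ∀ n, ∫⁻ x, (ENNReal.ofReal |g n x - f' x|) ^ 2 ∂μ =
        eLpNorm (((hmem n).toLp (g n) : X → ℝ) - (G : X → ℝ)) 2 μ ^ 2 := by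
      intro n
      rw [← lintegral_two]
      refine lintegral_congr_ae ?_
      filter_upwards [hf'ae, hcoe] with x hx hc
      rw [Pi.sub_apply, hc, hx]
    simp_rw [h1]
    have h2 := (Lp.tendsto_Lp_iff_tendsto_eLpNorm' (fun n => (hmem n).toLp (g n)) G).1 hG
    have h3 := ((ENNReal.continuous_pow 2).tendsto 0).comp h2
    rw [zero_pow two_ne_zero] at h3
    exact h3

end Pool.Agent.Lib.Pf720pi
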