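import Mathlib

/-!
# Pasts and tails of a process indexed by a group
-/

set_option autoImplicit false
set_option linter.unusedSectionVars false

open MeasureTheory Filter Topology
open scoped ENNReal

namespace Pool.Agent.Lib.Pf720pi

/-- the σ-algebra generated by the `mP`-measurable functions observed at the group elements of
`φ`-value below `t` -/
@[reducible] def past {G X : Type} (W : G → X → X) (φ : G → ℝ) (mP : MeasurableSpace X) (t : ℝ) :
    MeasurableSpace X :=
  ⨆ u : {u : G // φ u < t}, MeasurableSpace.comap (W u) mP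

/-- the remote past -/
@[reducible] def tail {G X : Type} (W : G → X → X) (φ : G → ℝ) (mP : MeasurableSpace X) : MeasurableSpace X :=
  ⨅ n : ℕ, past W φ mP (-(n : ℝ))

lemma past_mono {G X : Type} (W : G → X → X) (φ : G → ℝ) (mP : MeasurableSpace X) :
    Monotone (past W φ mP) := by
  intro s t hst
  refine iSup_le fun u => ?_
  exact le_iSup (fun u : {u : G // φ u < t} => MeasurableSpace.comap (W u) mP)
    ⟨u.1, u.2.trans_le hst⟩

lemma past_le {G X : Type} {mP : MeasurableSpace X} {mX : MeasurableSpace X} (W : G → X → X)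
    (φ : G → ℝ) (hP : mP ≤ mX) (hW : ∀ a, Measurable (W a)) (t : ℝ) :
    past W φ mP t ≤ mX := by
  refine iSup_le fun u => ?_
  exact (MeasurableSpace.comap_mono hP).trans (hW u).comap_le

lemma tail_le_past {G X : Type} (W : G → X → X) (φ : G → ℝ) (mP : MeasurableSpace X) (t : ℝ) :
    tail W φ mP ≤ past W φ mP t := by
  obtain ⟨n, hn⟩ := exists_nat_ge (-t)
  exact (iInf_le _ n).trans (past_mono W φ mP (by linarith))

lemma tail_le {G X : Type} {mP : MeasurableSpace X} {mX : MeasurableSpace X} (W : G → X → X)
    (φ : G → ℝ) (hP : mP ≤ mX) (hW : ∀ a, Measurable (W a)) :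
    tail W φ mP ≤ mX :=
  (tail_le_past W φ mP 0).trans (past_le W φ hP hW 0)

lemma comap_le_past {G X : Type} (W : G → X → X) (φ : G → ℝ) (mP : MeasurableSpace X) {u : G}
    {t : ℝ} (h : φ u < t) : MeasurableSpace.comap (W u) mP ≤ past W φ mP t :=
  le_iSup (fun u : {u : G // φ u < t} => MeasurableSpace.comap (W u) mP) ⟨u, h⟩

/-- translating a past -/
lemma comap_past {G X : Type} [AddCommGroup G] (W : G → X → X)
    (hWadd : ∀ a b x, W (a + b) x = W a (W b x)) (φ : G →+ ℝ) (mP : MeasurableSpace X) (v : G)
    (t : ℝ) : MeasurableSpace.comap (W v) (past W φ mP t) = past W φ mP (t + φ v) := by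
  have hcomp : ∀ u : G, MeasurableSpace.comap (W v) (MeasurableSpace.comap (W u) mP) =
      MeasurableSpace.comap (W (u + v)) mP := by
    intro u
    rw [MeasurableSpace.comap_comp]
    congr 1
    funext x
    exact (hWadd u v x).symm
  unfold past
  rw [MeasurableSpace.comap_iSup]
  simp only [hcomp]
  refine le_antisymm (iSup_le fun u => ?_) (iSup_le fun u => ?_)
  · refine le_iSup_of_le ⟨u.1 + v, ?_⟩ le_rfl
    have := u.2
    rw [map_add]
    linarith
  · refine le_iSup_of_le ⟨u.1 - v, ?_⟩ ?_
    · have := u.2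
      rw [map_sub]
      linarith
    · simp

end Pool.Agent.Lib.Pf720pi
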