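import Pool.Agent.Lib.Pf720pi.Ent
import Pool.Agent.Lib.Pf720pi.Defs

/-!
# The remote past of a finite process has zero entropy
-/

set_option autoImplicit false
set_option linter.unusedSectionVars false

open MeasureTheory Filter Topology
open scoped ENNReal

namespace Pool.Agent.Lib.Pf720pi

section Joint

variable {X : Type} {ι : Type} {β : Type} [DecidableEq β]

/-- joint variable of the members `b ∈ S` of a family of maps -/
def Jt (Z : β → X → ι) (S : Finset β) (x : X) : β → Option ι :=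
  fun b => if b ∈ S then some (Z b x) else none

lemma le_comap_Jt (Z : β → X → ι) {S : Finset β} {b : β} (hb : b ∈ S) :
    MeasurableSpace.comap (Z b) ⊤ ≤ MeasurableSpace.comap (Jt Z S) ⊤ := by
  rintro s ⟨t, -, rfl⟩
  refine ⟨{f | ∃ i ∈ t, f b = some i}, trivial, ?_⟩
  ext x
  simp [Jt, hb]

variable [Fintype ι] [Fintype β]

lemma comap_Jt_le {m : MeasurableSpace X} (Z : β → X → ι) {S : Finset β}
    (hS : ∀ b ∈ S, MeasurableSpace.comap (Z b) ⊤ ≤ m) :
    MeasurableSpace.comap (Jt Z S) ⊤ ≤ m := by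
  rintro s ⟨t, -, rfl⟩
  have h1 : Jt Z S ⁻¹' t = ⋃ f ∈ t, ⋂ b, {x | Jt Z S x b = f b} := by
    ext x
    simp only [Set.mem_preimage, Set.mem_iUnion, Set.mem_iInter, Set.mem_ofPred_eq, exists_prop]
    constructor
    · intro h
      exact ⟨_, h, fun b => rfl⟩
    · rintro ⟨f, hf, h⟩
      rwa [show Jt Z S x = f from funext h]
  rw [h1]
  refine MeasurableSet.biUnion (Set.toFinite t).countable fun f _ => ?_
  refine MeasurableSet.iInter fun b => ?_
  by_cases hb : b ∈ S
  · refine hS b hb _ ⟨{i | some i = f b}, trivial, ?_⟩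
    ext x
    simp [Jt, hb]
  · simp only [Jt, hb, if_false]
    exact MeasurableSet.const _

lemma comap_top_le {m : MeasurableSpace X} (Z : X → ι) (h : ∀ i, MeasurableSet[m] (Z ⁻¹' {i})) :
    MeasurableSpace.comap Z ⊤ ≤ m := by
  rintro s ⟨t, -, rfl⟩
  have h1 : Z ⁻¹' t = ⋃ i ∈ t, Z ⁻¹' {i} := by
    ext x
    simp
  rw [h1]
  exact MeasurableSet.biUnion (Set.toFinite t).countable fun i _ => h i

lemma measurableSet_preimage_of_comap {m : MeasurableSpace X} {ι' : Type} (Z : X → ι')
    (h : MeasurableSpace.comap Z ⊤ ≤ m) (s : Set ι') : MeasurableSet[m] (Z ⁻¹' s) :=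
  h _ ⟨s, trivial, rfl⟩

/-- adding one variable -/
lemma cH_Jt_insert {m : MeasurableSpace X} {mX : MeasurableSpace X} (μ : Measure X)
    [IsProbabilityMeasure μ] (hm : m ≤ mX) (Z : β → X → ι)
    (hZ : ∀ b, MeasurableSpace.comap (Z b) ⊤ ≤ mX) {S : Finset β} {a : β} (ha : a ∉ S) :
    cH μ m (Jt Z (insert a S)) =
      cH μ m (Jt Z S) + cH μ (m ⊔ MeasurableSpace.comap (Jt Z S) ⊤) (Z a) := by
  classical
  rw [← cH_pair μ hm (Z a) (Jt Z S)
    (fun i => measurableSet_preimage_of_comap _ (hZ a) _)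
    (fun i => measurableSet_preimage_of_comap _ (comap_Jt_le Z fun b _ => hZ b) _)]
  have h1 := cH_comp_injective (m := m) μ (Jt Z (insert a S))
    (e := fun f : β → Option ι => (f a, Function.update f a none)) (by
      intro f g hfg
      simp only [Prod.mk.injEq] at hfg
      funext b
      by_cases hb : b = a
      · rw [hb]
        exact hfg.1
      · have := congrFun hfg.2 b
        simpa [hb] using this)
  have h2 := cH_comp_injective (m := m) μ (fun x => (Z a x, Jt Z S x))
    (e := fun q : ι × (β → Option ι) => (some q.1, q.2)) (by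
      intro f g hfg
      simp only [Prod.mk.injEq, Option.some.injEq] at hfg
      exact Prod.ext hfg.1 hfg.2)
  rw [← h1, ← h2]
  congr 1
  funext x
  simp only [Prod.mk.injEq]
  refine ⟨by simp [Jt], ?_⟩
  funext b
  by_cases hb : b = a
  · subst hb
    simp [Jt, ha]
  · simp [Jt, hb]

/-- the chain rule, in the order of increasing labels -/
lemma cH_chain {m : MeasurableSpace X} {mX : MeasurableSpace X} (μ : Measure X)
    [IsProbabilityMeasure μ] (hm : m ≤ mX) (Z : β → X → ι)
    (hZ : ∀ b, MeasurableSpace.comap (Z b) ⊤ ≤ mX) (t : β → ℝ) (ht : Function.Injective t)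
    (S : Finset β) :
    cH μ m (Jt Z S) =
      ∑ a ∈ S, cH μ (m ⊔ MeasurableSpace.comap (Jt Z (S.filter fun b => t b < t a)) ⊤) (Z a) := by
  classical
  induction S using Finset.induction_on_max_value t with
  | empty =>
    rw [Finset.sum_empty]
    refine cH_eq_zero μ hm _ fun f => ?_
    exact measurableSet_preimage_of_comap _ (comap_Jt_le Z (by simp)) _
  | insert a S ha hmax ih =>
    rw [cH_Jt_insert μ hm Z hZ ha, Finset.sum_insert ha, ih, add_comm]
    have hlt : ∀ b ∈ S, t b < t a := fun b hb =>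
      lt_of_le_of_ne (hmax b hb) fun h => ha (ht h ▸ hb)
    congr 1
    · have : (insert a S).filter (fun b => t b < t a) = S := by
        ext b
        simp only [Finset.mem_filter, Finset.mem_insert]
        constructor
        · rintro ⟨rfl | h, h'⟩
          · exact absurd h' (lt_irrefl _)
          · exact h
        · intro h
          exact ⟨Or.inr h, hlt b h⟩
      rw [this]
    · refine Finset.sum_congr rfl fun b hb => ?_
      have : (insert a S).filter (fun c => t c < t b) = S.filter (fun c => t c < t b) := by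
        rw [Finset.filter_insert, if_neg (not_lt.2 (hlt b hb).le)]
      rw [this]

lemma cH_subadd {m : MeasurableSpace X} {mX : MeasurableSpace X} (μ : Measure X)
    [IsProbabilityMeasure μ] (hm : m ≤ mX) (Z : β → X → ι)
    (hZ : ∀ b, MeasurableSpace.comap (Z b) ⊤ ≤ mX) (t : β → ℝ) (ht : Function.Injective t)
    (S : Finset β) :
    cH μ m (Jt Z S) ≤ ∑ a ∈ S, cH μ m (Z a) := by
  rw [cH_chain μ hm Z hZ t ht S]
  refine Finset.sum_le_sum fun a _ => ?_
  refine cH_anti μ le_sup_left (sup_le hm (comap_Jt_le Z fun b _ => hZ b)) _ fun i => ?_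
  exact measurableSet_preimage_of_comap _ (hZ a) _

end Joint

section Count

/-- embedding of the box -/
def bz {d N : ℕ} (b : Fin d → Fin N) : Fin d → ℤ := fun i => ((b i : ℕ) : ℤ)

lemma bz_injective {d N : ℕ} : Function.Injective (bz (d := d) (N := N)) := by
  intro a b h
  funext i
  have := congrFun h i
  simp only [bz] at this
  exact Fin.ext (by exact_mod_cast this)

/-- points of the box far from the boundary -/
def Deep {d N : ℕ} (n : ℕ) (b : Fin d → Fin N) : Prop := ∀ i, n ≤ (b i : ℕ) ∧ (b i : ℕ) + n < N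

instance {d N : ℕ} (n : ℕ) (b : Fin d → Fin N) : Decidable (Deep n b) := by
  unfold Deep; infer_instance

lemma card_deep (d N n : ℕ) :
    (N - 2 * n) ^ d ≤ (Finset.univ.filter fun b : Fin d → Fin N => Deep n b).card := by
  have h1 : (Finset.univ.filter fun b : Fin d → Fin N => Deep n b) =
      Fintype.piFinset fun _ : Fin d =>
        (Finset.univ.filter fun j : Fin N => n ≤ (j : ℕ) ∧ (j : ℕ) + n < N) := by
    ext b
    simp only [Finset.mem_filter, Finset.mem_univ, true_and, Fintype.mem_piFinset]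
    rfl
  rw [h1, Fintype.card_piFinset, Finset.prod_const, Finset.card_univ, Fintype.card_fin]
  refine Nat.pow_le_pow_left ?_ d
  have h2 := Finset.card_le_card_of_injOn (s := (Finset.univ : Finset (Fin (N - 2 * n))))
    (t := Finset.univ.filter fun j : Fin N => n ≤ (j : ℕ) ∧ (j : ℕ) + n < N)
    (fun j => ⟨(j : ℕ) + n, by have := j.2; omega⟩)
    (by
      intro j _
      have := j.2
      simp only [Finset.coe_filter, Finset.mem_univ, true_and, Set.mem_ofPred_eq]
      omega)
    (by
      intro a _ b _ h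
      simp only [Fin.mk.injEq] at h
      exact Fin.ext (by omega))
  simpa using h2

lemma sum_deep_le {d N : ℕ} (n : ℕ) (f : (Fin d → Fin N) → ℝ) (e c : ℝ) (he : 0 ≤ e)
    (hc : 0 ≤ c)
    (h1 : ∀ b, Deep n b → f b ≤ e) (h2 : ∀ b, f b ≤ c) :
    ∑ b, f b ≤ (N : ℝ) ^ d * e + c * ((N : ℝ) ^ d - ((N - 2 * n : ℕ) : ℝ) ^ d) := by
  classical
  have h3 : ∀ b, f b ≤ e + if Deep n b then 0 else c := by
    intro b
    by_cases h : Deep n b
    · simp [h, h1 b h]
    · simp only [h, if_false]
      linarith [h2 b]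
  refine (Finset.sum_le_sum fun b _ => h3 b).trans ?_
  rw [Finset.sum_add_distrib, Finset.sum_const, Finset.card_univ, Fintype.card_fun,
    Fintype.card_fin, Fintype.card_fin, nsmul_eq_mul, Nat.cast_pow]
  refine add_le_add le_rfl ?_
  rw [Finset.sum_ite, Finset.sum_const_zero, zero_add, Finset.sum_const, nsmul_eq_mul, mul_comm]
  refine mul_le_mul_of_nonneg_left ?_ hc
  have h4 := card_deep d N n
  have h5 := Finset.card_filter_add_card_filter_not (s := (Finset.univ : Finset (Fin d → Fin N)))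
    (fun b => Deep n b)
  rw [Finset.card_univ, Fintype.card_fun, Fintype.card_fin, Fintype.card_fin] at h5
  have h6 : ((Finset.univ.filter fun b : Fin d → Fin N => Deep n b).card : ℝ) +
    ((Finset.univ.filter fun b : Fin d → Fin N => ¬ Deep n b).card : ℝ) = (N : ℝ) ^ d := by
    exact_mod_cast h5
  have h7 : (((N - 2 * n : ℕ) : ℝ)) ^ d ≤
      ((Finset.univ.filter fun b : Fin d → Fin N => Deep n b).card : ℝ) := by
    exact_mod_cast h4
  linarith

end Count

section Main

variable {X : Type} {mX : MeasurableSpace X} {μ : Measure X} [IsProbabilityMeasure μ] {d : ℕ}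

/-- the observations in a window, restricted to `p` -/
@[reducible] def win (W : (Fin d → ℤ) → X → X) (mP : MeasurableSpace X) (p : (Fin d → ℤ) → Prop)
    (n : ℕ) : MeasurableSpace X :=
  ⨆ u : {u : Fin d → ℤ // (∀ i, |u i| ≤ (n : ℤ)) ∧ p u}, MeasurableSpace.comap (W u) mP

lemma win_mono (W : (Fin d → ℤ) → X → X) (mP : MeasurableSpace X) (p : (Fin d → ℤ) → Prop) :
    Monotone (win W mP p) := by
  intro n n' h
  refine iSup_le fun u => ?_
  exact le_iSup (fun u : {u : Fin d → ℤ // (∀ i, |u i| ≤ (n' : ℤ)) ∧ p u} =>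
    MeasurableSpace.comap (W u) mP) ⟨u.1, fun i => (u.2.1 i).trans (by exact_mod_cast h), u.2.2⟩

lemma iSup_win (W : (Fin d → ℤ) → X → X) (mP : MeasurableSpace X) (p : (Fin d → ℤ) → Prop) :
    ⨆ n, win W mP p n = ⨆ u : {u : Fin d → ℤ // p u}, MeasurableSpace.comap (W u) mP := by
  refine le_antisymm (iSup_le fun n => iSup_le fun u => ?_) (iSup_le fun u => ?_)
  · exact le_iSup (fun u : {u : Fin d → ℤ // p u} => MeasurableSpace.comap (W u) mP)
      ⟨u.1, u.2.2⟩
  · have hb : ∀ i, |u.1 i| ≤ ((∑ i, (u.1 i).natAbs : ℕ) : ℤ) := by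
      intro i
      rw [Int.abs_eq_natAbs]
      exact_mod_cast Finset.single_le_sum (f := fun i => (u.1 i).natAbs)
        (fun _ _ => Nat.zero_le _) (Finset.mem_univ i)
    refine le_iSup_of_le (∑ i, (u.1 i).natAbs) ?_
    exact le_iSup (fun v : {v : Fin d → ℤ //
      (∀ i, |v i| ≤ ((∑ i, (u.1 i).natAbs : ℕ) : ℤ)) ∧ p v} =>
      MeasurableSpace.comap (W v) mP) ⟨u.1, hb, u.2⟩

lemma win_le (W : (Fin d → ℤ) → X → X) {mP : MeasurableSpace X} (hP : mP ≤ mX)
    (hW : ∀ a, @Measurable X X mX mX (W a)) (p : (Fin d → ℤ) → Prop) (n : ℕ) : win W mP p n ≤ mX :=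
  iSup_le fun u => (MeasurableSpace.comap_mono hP).trans (hW u).comap_le

/-- a deep point sees the window -/
lemma comap_win_le (W : (Fin d → ℤ) → X → X)
    (hWadd : ∀ a b x, W (a + b) x = W a (W b x)) {ι : Type} (P : X → ι)
    (p : (Fin d → ℤ) → Prop) {N n : ℕ} (a : Fin d → Fin N) (ha : Deep n a)
    (S : Finset (Fin d → Fin N)) (hS : ∀ b, p (bz b - bz a) → b ∈ S) :
    MeasurableSpace.comap (W (bz a)) (win W (MeasurableSpace.comap P ⊤) p n) ≤
      MeasurableSpace.comap (Jt (fun b : Fin d → Fin N => fun x => P (W (bz b) x)) S) ⊤ := by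
  rw [MeasurableSpace.comap_iSup]
  refine iSup_le fun u => ?_
  rw [MeasurableSpace.comap_comp, MeasurableSpace.comap_comp]
  have hlo : ∀ i, 0 ≤ u.1 i + (bz a) i := by
    intro i
    have h1 := (abs_le.1 (u.2.1 i)).1
    have h2 := (ha i).1
    simp only [bz]
    omega
  have hhi : ∀ i, u.1 i + (bz a) i < N := by
    intro i
    have h1 := (abs_le.1 (u.2.1 i)).2
    have h2 := (ha i).2
    simp only [bz]
    omega
  let b : Fin d → Fin N := fun i => ⟨(u.1 i + (bz a) i).toNat, by
    have := hlo i; have := hhi i; omega⟩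
  have hb : bz b = u.1 + bz a := by
    funext i
    show (((u.1 i + (bz a) i).toNat : ℕ) : ℤ) = u.1 i + bz a i
    exact Int.toNat_of_nonneg (hlo i)
  have hbS : b ∈ S := hS b (by rw [hb, add_sub_cancel_right]; exact u.2.2)
  have hcomp : (P ∘ W u.1) ∘ W (bz a) = fun x => P (W (bz b) x) := by
    funext x
    simp only [Function.comp]
    rw [hb, hWadd]
  have := le_comap_Jt (fun b : Fin d → Fin N => fun x => P (W (bz b) x)) hbS
  rw [show (P ∘ W u.1 ∘ W (bz a)) = fun x => P (W (bz b) x) from hcomp]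
  exact this

theorem zeroEntropy_of_tail {X : Type} {mX : MeasurableSpace X} {μ : Measure X}
    [IsProbabilityMeasure μ] {d : ℕ} (W : (Fin d → ℤ) → X → X) (hW0 : ∀ x, W 0 x = x)
    (hWadd : ∀ a b x, W (a + b) x = W a (W b x)) (hWmp : ∀ a, MeasurePreserving (W a) μ μ)
    (φ : (Fin d → ℤ) →+ ℝ) (hφ : Function.Injective φ) {ι : Type} [Fintype ι] (P : X → ι)
    (hP : ∀ i, MeasurableSet (P ⁻¹' {i})) (A : Set X)
    (hA : MeasurableSet[tail W φ (MeasurableSpace.comap P ⊤)] A) :
    Tendsto (fun N : ℕ => (∑ ω : Finset (Fin d → Fin N), Real.negMulLog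
      (μ.real {x | ∀ u : Fin d → Fin N, W (fun i => ((u i : ℕ) : ℤ)) x ∈ A ↔ u ∈ ω})) /
        (N : ℝ) ^ d) atTop (𝓝 0) := by
  classical
  have hW : ∀ a, Measurable (W a) := fun a => (hWmp a).measurable
  have hmP : MeasurableSpace.comap P ⊤ ≤ mX := comap_top_le P hP
  set mP := MeasurableSpace.comap P ⊤ with hmPdef
  set T := tail W φ mP with hTdef
  have hTle : T ≤ mX := tail_le W φ hmP hW
  -- the two families
  let ZP : ∀ N : ℕ, (Fin d → Fin N) → X → ι := fun N b x => P (W (bz b) x)
  let Q : X → Bool := fun x => decide (x ∈ A)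
  let ZQ : ∀ N : ℕ, (Fin d → Fin N) → X → Bool := fun N b x => Q (W (bz b) x)
  have hZPcomap : ∀ N (b : Fin d → Fin N), MeasurableSpace.comap (ZP N b) ⊤ =
      MeasurableSpace.comap (W (bz b)) mP := by
    intro N b
    rw [hmPdef, MeasurableSpace.comap_comp]
    rfl
  have hZPm : ∀ N (b : Fin d → Fin N), MeasurableSpace.comap (ZP N b) ⊤ ≤ mX := by
    intro N b
    rw [hZPcomap]
    exact (MeasurableSpace.comap_mono hmP).trans (hW _).comap_le
  have hQT : MeasurableSpace.comap Q ⊤ ≤ T := by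
    refine comap_top_le Q fun i => ?_
    cases i with
    | true =>
      have : Q ⁻¹' {true} = A := by ext x; simp [Q]
      rw [this]; exact hA
    | false =>
      have : Q ⁻¹' {false} = Aᶜ := by ext x; simp [Q]
      rw [this]; exact hA.compl
  have hTinv : ∀ v, MeasurableSpace.comap (W v) T ≤ T := by
    intro v
    refine le_iInf fun n => ?_
    have h1 : T ≤ past W φ mP (-(n : ℝ) - φ v) := tail_le_past W φ mP _
    refine (MeasurableSpace.comap_mono h1).trans ?_
    rw [comap_past W hWadd φ mP v]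
    rw [sub_add_cancel]
  have hZQcomap : ∀ N (b : Fin d → Fin N), MeasurableSpace.comap (ZQ N b) ⊤ =
      MeasurableSpace.comap (W (bz b)) (MeasurableSpace.comap Q ⊤) := by
    intro N b
    rw [MeasurableSpace.comap_comp]
    rfl
  have hZQT : ∀ N (b : Fin d → Fin N), MeasurableSpace.comap (ZQ N b) ⊤ ≤ T := by
    intro N b
    rw [hZQcomap]
    exact (MeasurableSpace.comap_mono hQT).trans (hTinv _)
  have hZQm : ∀ N (b : Fin d → Fin N), MeasurableSpace.comap (ZQ N b) ⊤ ≤ mX := fun N b =>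
    (hZQT N b).trans hTle
  -- labels
  have hlab : ∀ N, Function.Injective fun b : Fin d → Fin N => φ (bz b) := fun N =>
    hφ.comp bz_injective
  have hQm : ∀ i, MeasurableSet[mX] (Q ⁻¹' {i}) := fun i =>
    measurableSet_preimage_of_comap _ (hQT.trans hTle) _
  set h := cH μ (past W φ mP 0) P with hh
  have hh0 : 0 ≤ h := cH_nonneg μ (past_le W φ hmP hW 0) P hP
  -- the sum is the entropy of the joint variable
  have hsum : ∀ N : ℕ, (∑ ω : Finset (Fin d → Fin N), Real.negMulLog
      (μ.real {x | ∀ u : Fin d → Fin N, W (fun i => ((u i : ℕ) : ℤ)) x ∈ A ↔ u ∈ ω})) =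
        cH μ ⊥ (Jt (ZQ N) Finset.univ) := by
    intro N
    let R : X → Finset (Fin d → Fin N) := fun x => Finset.univ.filter fun u => W (bz u) x ∈ A
    have hR : ∀ ω, R ⁻¹' {ω} =
        {x | ∀ u : Fin d → Fin N, W (fun i => ((u i : ℕ) : ℤ)) x ∈ A ↔ u ∈ ω} := by
      intro ω
      ext x
      simp only [Set.mem_preimage, Set.mem_singleton_iff, R, Finset.ext_iff, Finset.mem_filter,
        Finset.mem_univ, true_and, Set.mem_ofPred_eq]
      rfl
    have hRJ : Jt (ZQ N) Finset.univ =
        fun x => (fun ω : Finset (Fin d → Fin N) => fun b => some (decide (b ∈ ω))) (R x) := by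
      funext x b
      simp [Jt, ZQ, Q, R]
    have hinj : Function.Injective
        (fun ω : Finset (Fin d → Fin N) => fun b => some (decide (b ∈ ω))) := by
      intro ω ω' hω
      ext b
      have := congrFun hω b
      simpa using this
    have hRm : ∀ ω, MeasurableSet[mX] (R ⁻¹' {ω}) := by
      intro ω
      have : R ⁻¹' {ω} = (Jt (ZQ N) Finset.univ) ⁻¹' {fun b => some (decide (b ∈ ω))} := by
        rw [hRJ]
        ext x
        simp only [Set.mem_preimage, Set.mem_singleton_iff]
        exact ⟨fun hx => by rw [hx], fun hx => hinj hx⟩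
      rw [this]
      exact measurableSet_preimage_of_comap _ (comap_Jt_le _ fun b _ => hZQm N b) _
    rw [hRJ, cH_comp_injective (m := ⊥) μ R hinj, cH_bot μ R hRm]
    refine Finset.sum_congr rfl fun ω _ => ?_
    rw [hR]
  -- lower bound
  have hlow : ∀ N : ℕ, (N : ℝ) ^ d * h ≤ cH μ T (Jt (ZP N) Finset.univ) := by
    intro N
    rw [cH_chain μ hTle (ZP N) (hZPm N) _ (hlab N)]
    have : (N : ℝ) ^ d * h = ∑ a : Fin d → Fin N, h := by
      rw [Finset.sum_const, Finset.card_univ, Fintype.card_fun, Fintype.card_fin,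
        Fintype.card_fin, nsmul_eq_mul, Nat.cast_pow]
    rw [this]
    refine Finset.sum_le_sum fun a _ => ?_
    have h1 : cH μ ((past W φ mP 0).comap (W (bz a))) (fun x => P (W (bz a) x)) = h :=
      cH_comap μ (past_le W φ hmP hW 0) P hP (hWmp (bz a))
    rw [comap_past W hWadd φ mP, zero_add] at h1
    rw [← h1]
    refine cH_anti μ ?_ (past_le W φ hmP hW _) _ fun i =>
      measurableSet_preimage_of_comap _ (hZPm N a) _
    refine sup_le (tail_le_past W φ mP _) (comap_Jt_le _ fun b hb => ?_)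
    rw [hZPcomap]
    exact comap_le_past W φ mP (Finset.mem_filter.1 hb).2
  -- windows
  have hwinneg : Tendsto (fun n => cH μ (win W mP (fun u => φ u < 0) n) P) atTop (𝓝 h) := by
    have := tendsto_cH μ (win_mono W mP fun u => φ u < 0) (win_le W hmP hW _) P hP
    rwa [iSup_win] at this
  have hwinall : Tendsto (fun n => cH μ (win W mP (fun _ => True) n) Q) atTop (𝓝 0) := by
    have := tendsto_cH μ (win_mono W mP fun _ => True) (win_le W hmP hW _) Q hQm
    have h0 : cH μ (⨆ n, win W mP (fun _ => True) n) Q = 0 := by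
      refine cH_eq_zero μ (iSup_le fun n => win_le W hmP hW _ n) Q fun i => ?_
      have hle : T ≤ ⨆ n, win W mP (fun _ => True) n := by
        refine (tail_le_past W φ mP 0).trans ?_
        rw [iSup_win]
        refine iSup_le fun u => ?_
        exact le_iSup (fun u : {u : Fin d → ℤ // True} => MeasurableSpace.comap (W u) mP)
          ⟨u.1, trivial⟩
      exact measurableSet_preimage_of_comap _ (hQT.trans hle) _
    rwa [h0] at this
  have hnn : ∀ N : ℕ, 0 ≤ cH μ ⊥ (Jt (ZQ N) Finset.univ) := by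
    intro N
    refine cH_nonneg μ bot_le _ fun i =>
      measurableSet_preimage_of_comap _ (comap_Jt_le _ fun b _ => hZQm N b) _
  simp only [hsum]
  rw [Metric.tendsto_atTop]
  intro ε hε
  have hε4 : 0 < ε / 4 := by linarith
  obtain ⟨n₁, hn₁⟩ := ((tendsto_order.1 hwinneg).2 (h + ε / 4) (by linarith)).exists
  obtain ⟨n₂, hn₂⟩ := ((tendsto_order.1 hwinall).2 (ε / 4) hε4).exists
  -- the main estimate
  have hmain : ∀ N : ℕ, cH μ ⊥ (Jt (ZQ N) Finset.univ) ≤ (N : ℝ) ^ d * (ε / 2) +
      (Fintype.card ι : ℝ) * ((N : ℝ) ^ d - ((N - 2 * n₁ : ℕ) : ℝ) ^ d) +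
      2 * ((N : ℝ) ^ d - ((N - 2 * n₂ : ℕ) : ℝ) ^ d) := by
    intro N
    have hJPm : MeasurableSpace.comap (Jt (ZP N) Finset.univ) ⊤ ≤ mX :=
      comap_Jt_le _ fun b _ => hZPm N b
    have hJQT : MeasurableSpace.comap (Jt (ZQ N) Finset.univ) ⊤ ≤ T :=
      comap_Jt_le _ fun b _ => hZQT N b
    have hJQm := hJQT.trans hTle
    have e1 := cH_pair (m := ⊥) μ bot_le (Jt (ZP N) Finset.univ) (Jt (ZQ N) Finset.univ)
      (fun i => measurableSet_preimage_of_comap _ hJPm _)
      (fun i => measurableSet_preimage_of_comap _ hJQm _)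
    have e2 := cH_pair (m := ⊥) μ bot_le (Jt (ZQ N) Finset.univ) (Jt (ZP N) Finset.univ)
      (fun i => measurableSet_preimage_of_comap _ hJQm _)
      (fun i => measurableSet_preimage_of_comap _ hJPm _)
    have e3 := cH_comp_injective (m := ⊥) μ
      (fun x => (Jt (ZP N) Finset.univ x, Jt (ZQ N) Finset.univ x))
      (e := Prod.swap) Prod.swap_injective
    simp only [Prod.swap_prod_mk] at e3
    rw [bot_sup_eq] at e1 e2
    have e4 : cH μ T (Jt (ZP N) Finset.univ) ≤
        cH μ (MeasurableSpace.comap (Jt (ZQ N) Finset.univ) ⊤) (Jt (ZP N) Finset.univ) :=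
      cH_anti μ hJQT hTle _ fun i => measurableSet_preimage_of_comap _ hJPm _
    have e5 : cH μ ⊥ (Jt (ZP N) Finset.univ) ≤ (N : ℝ) ^ d * (h + ε / 4) +
        (Fintype.card ι : ℝ) * ((N : ℝ) ^ d - ((N - 2 * n₁ : ℕ) : ℝ) ^ d) := by
      rw [cH_chain (m := ⊥) μ bot_le (ZP N) (hZPm N) _ (hlab N)]
      refine sum_deep_le n₁ _ _ _ (by linarith) (Nat.cast_nonneg _) ?_ ?_
      · intro a ha
        have h1 : cH μ ((win W mP (fun u => φ u < 0) n₁).comap (W (bz a)))
            (fun x => P (W (bz a) x)) = cH μ (win W mP (fun u => φ u < 0) n₁) P :=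
          cH_comap μ (win_le W hmP hW _ _) P hP (hWmp (bz a))
        refine le_trans ?_ (h1.trans_le hn₁.le)
        refine cH_anti μ ?_ (sup_le bot_le (comap_Jt_le _ fun b _ => hZPm N b)) _ fun i =>
          measurableSet_preimage_of_comap _ (hZPm N a) _
        refine le_trans ?_ le_sup_right
        refine comap_win_le W hWadd P (fun u => φ u < 0) a ha _ fun b hb => ?_
        simp only [Finset.mem_filter, Finset.mem_univ, true_and]
        rw [map_sub] at hb
        linarith
      · intro a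
        exact cH_le_card μ (sup_le bot_le (comap_Jt_le _ fun b _ => hZPm N b)) _ fun i =>
          measurableSet_preimage_of_comap _ (hZPm N a) _
    have e6 : cH μ (MeasurableSpace.comap (Jt (ZP N) Finset.univ) ⊤) (Jt (ZQ N) Finset.univ) ≤
        (N : ℝ) ^ d * (ε / 4) + 2 * ((N : ℝ) ^ d - ((N - 2 * n₂ : ℕ) : ℝ) ^ d) := by
      refine (cH_subadd μ hJPm (ZQ N) (hZQm N) _ (hlab N) _).trans ?_
      refine sum_deep_le n₂ _ _ _ hε4.le (by norm_num) ?_ ?_
      · intro a ha
        have h1 : cH μ ((win W mP (fun _ => True) n₂).comap (W (bz a)))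
            (fun x => Q (W (bz a) x)) = cH μ (win W mP (fun _ => True) n₂) Q :=
          cH_comap μ (win_le W hmP hW _ _) Q hQm (hWmp (bz a))
        refine le_trans ?_ (h1.trans_le hn₂.le)
        refine cH_anti μ ?_ hJPm _ fun i =>
          measurableSet_preimage_of_comap _ (hZQm N a) _
        exact comap_win_le W hWadd P (fun _ => True) a ha _ fun b hb => Finset.mem_univ b
      · intro a
        have := cH_le_card μ hJPm (ZQ N a) fun i =>
          measurableSet_preimage_of_comap _ (hZQm N a) _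
        simpa using this
    have e7 := hlow N
    have e8 : (N : ℝ) ^ d * (h + ε / 4) = (N : ℝ) ^ d * h + (N : ℝ) ^ d * (ε / 4) := by ring
    have e9 : (N : ℝ) ^ d * (ε / 2) = (N : ℝ) ^ d * (ε / 4) + (N : ℝ) ^ d * (ε / 4) := by ring
    linarith
  -- the limit
  have hlim : ∀ n : ℕ, Tendsto (fun N : ℕ => 1 - (((N - 2 * n : ℕ) : ℝ) / N) ^ d) atTop
      (𝓝 0) := by
    intro n
    have h1 : Tendsto (fun N : ℕ => ((N - 2 * n : ℕ) : ℝ) / N) atTop (𝓝 1) := by
      have h2 : Tendsto (fun N : ℕ => 1 - (2 * n : ℝ) / N) atTop (𝓝 (1 - 0)) :=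
        tendsto_const_nhds.sub (tendsto_const_div_atTop_nhds_zero_nat _)
      rw [sub_zero] at h2
      refine h2.congr' ?_
      filter_upwards [eventually_ge_atTop (2 * n + 1)] with N hN
      have hN0 : (N : ℝ) ≠ 0 := by
        have : 0 < N := by omega
        positivity
      rw [Nat.cast_sub (by omega)]
      push_cast
      field_simp
    have h3 := (h1.pow d)
    rw [one_pow] at h3
    simpa using (tendsto_const_nhds (x := (1 : ℝ))).sub h3
  have hlim2 : Tendsto (fun N : ℕ => ε / 2 +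
      (Fintype.card ι : ℝ) * (1 - (((N - 2 * n₁ : ℕ) : ℝ) / N) ^ d) +
      2 * (1 - (((N - 2 * n₂ : ℕ) : ℝ) / N) ^ d)) atTop (𝓝 (ε / 2)) := by
    have := (tendsto_const_nhds (x := ε / 2)).add ((hlim n₁).const_mul (Fintype.card ι : ℝ))
    have := this.add ((hlim n₂).const_mul 2)
    simpa using this
  obtain ⟨N₀, hN₀⟩ := eventually_atTop.1 ((tendsto_order.1 hlim2).2 ε (by linarith))
  refine ⟨max N₀ 1, fun N hN => ?_⟩
  have hN1 : 1 ≤ N := (le_max_right _ _).trans hN
  have hNpos : (0 : ℝ) < (N : ℝ) ^ d := by positivity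
  rw [Real.dist_eq, sub_zero, abs_of_nonneg (div_nonneg (hnn N) hNpos.le)]
  refine lt_of_le_of_lt ?_ (hN₀ N ((le_max_left _ _).trans hN))
  rw [div_le_iff₀ hNpos]
  refine (hmain N).trans (le_of_eq ?_)
  have hp : ∀ k : ℕ, (((N - k : ℕ) : ℝ) / N) ^ d * (N : ℝ) ^ d = ((N - k : ℕ) : ℝ) ^ d := by
    intro k
    rw [div_pow]
    field_simp
  have hp1 := hp (2 * n₁)
  have hp2 := hp (2 * n₂)
  linear_combination (Fintype.card ι : ℝ) * hp1 + 2 * hp2

end Main

end Pool.Agent.Lib.Pf720pi
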