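import Pool.Agent.Lib.Pf720ae.Alg.AE

/-!
# Orthogonality of products of delayed martingale differences, and almost sure convergence
-/

set_option autoImplicit false
set_option linter.unusedSectionVars false

open Finset MeasureTheory Filter Topology
open scoped ENNReal

namespace Pool.Agent.Lib.Pf720pi

open Pool.Agent.Lib.Pf720ae

/-- the integer vector of a vector of natural numbers -/
def cz' {κ : Type} (m : κ → ℕ) : κ → ℤ := fun l => (m l : ℤ)

namespace CoreAux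

lemma count_line {β : ℝ} (hβ : β ≠ 0) (a p : ℝ) (hp : 0 ≤ p) (N : ℕ) :
    (((range N).filter fun t : ℕ => |a + t * β| ≤ p).card : ℝ) ≤ 2 * p / |β| + 1 := by
  have hβ' : 0 < |β| := abs_pos.2 hβ
  set S := (range N).filter fun t : ℕ => |a + t * β| ≤ p with hS
  rcases S.eq_empty_or_nonempty with h | h
  · rw [h]
    simp only [card_empty, Nat.cast_zero]
    positivity
  · set t₀ := S.min' h with ht₀
    have h0 : |a + t₀ * β| ≤ p := (mem_filter.1 (S.min'_mem h)).2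
    have hsub : S ⊆ Icc t₀ (t₀ + ⌊2 * p / |β|⌋₊) := by
      intro t ht
      have h1 : |a + t * β| ≤ p := (mem_filter.1 ht).2
      have h2 : t₀ ≤ t := S.min'_le t ht
      rw [mem_Icc]
      refine ⟨h2, ?_⟩
      obtain ⟨d, rfl⟩ := Nat.exists_eq_add_of_le h2
      have h3 : (d : ℝ) * |β| ≤ 2 * p := by
        have : (d : ℝ) * β = (a + ((t₀ + d : ℕ) : ℝ) * β) - (a + t₀ * β) := by push_cast; ring
        calc (d : ℝ) * |β| = |(d : ℝ) * β| := by rw [abs_mul, Nat.abs_cast]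
          _ = |(a + ((t₀ + d : ℕ) : ℝ) * β) - (a + t₀ * β)| := by rw [this]
          _ ≤ |a + ((t₀ + d : ℕ) : ℝ) * β| + |a + t₀ * β| := abs_sub _ _
          _ ≤ 2 * p := by linarith
      have h4 : d ≤ ⌊2 * p / |β|⌋₊ := by
        refine Nat.le_floor ?_
        rw [le_div_iff₀ hβ']
        exact h3
      omega
    have h5 := card_le_card hsub
    rw [Nat.card_Icc] at h5
    have h6 : S.card ≤ ⌊2 * p / |β|⌋₊ + 1 := by omega
    have h7 : ((⌊2 * p / |β|⌋₊ : ℕ) : ℝ) ≤ 2 * p / |β| := Nat.floor_le (by positivity)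
    calc (S.card : ℝ) ≤ ((⌊2 * p / |β|⌋₊ + 1 : ℕ) : ℝ) := by exact_mod_cast h6
      _ ≤ 2 * p / |β| + 1 := by push_cast; linarith

variable {κ : Type} [Fintype κ] [DecidableEq κ]

lemma psi_update (ψ : (κ → ℤ) →+ ℝ) (m : κ → ℕ) (l : κ) (t : ℕ) :
    ψ (cz' (Function.update m l t)) =
      ψ (cz' (Function.update m l 0)) + t * ψ (Pi.single l 1) := by
  have h : cz' (Function.update m l t) = cz' (Function.update m l 0) + t • Pi.single l (1 : ℤ) := by
    funext l'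
    by_cases hl : l' = l
    · subst hl
      simp [cz']
    · simp [cz', Function.update_of_ne hl, Pi.single_eq_of_ne hl]
  rw [h, map_add, map_nsmul, nsmul_eq_mul]

lemma inv_update {X : Type} {Y : (κ → ℕ) → X → ℝ} {l : κ}
    (h : ∀ m x, Y (m + Pi.single l 1) x = Y m x) (m : κ → ℕ) (t : ℕ) (x : X) :
    Y (Function.update m l t) x = Y (Function.update m l 0) x := by
  induction t with
  | zero => rfl
  | succ t ih =>
    have : Function.update m l (t + 1) = Function.update m l t + Pi.single l 1 := by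
      funext l'
      by_cases hl : l' = l
      · subst hl; simp
      · simp [Function.update_of_ne hl, Pi.single_eq_of_ne hl]
    rw [this, h, ih]

lemma exists_sep {ψ₁ ψ₂ : (κ → ℤ) →+ ℝ} (h : ψ₁ ≠ ψ₂) :
    ∃ l, ψ₁ (Pi.single l 1) ≠ ψ₂ (Pi.single l 1) := by
  by_contra hno
  push Not at hno
  apply h
  refine AddMonoidHom.functions_ext _ _ _ fun l x => ?_
  have : (Pi.single l x : κ → ℤ) = x • Pi.single l (1 : ℤ) := by
    rw [← Pi.single_smul]
    simp
  rw [this, map_zsmul, map_zsmul, hno l]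

/-- density of the points where two forms are close -/
lemma bad_density {ψ₁ ψ₂ : (κ → ℤ) →+ ℝ} {l : κ}
    (hl : ψ₁ (Pi.single l 1) ≠ ψ₂ (Pi.single l 1)) {p : ℝ} (hp : 0 ≤ p) (M : κ → ℕ)
    (hM : ∀ l, 0 < M l) :
    avg M (fun m => if |ψ₁ (cz' m) - ψ₂ (cz' m)| ≤ p then (1 : ℝ) else 0) ≤
      (2 * p / |ψ₁ (Pi.single l 1) - ψ₂ (Pi.single l 1)| + 1) / M l := by
  set β := ψ₁ (Pi.single l 1) - ψ₂ (Pi.single l 1) with hβd
  have hβ : β ≠ 0 := sub_ne_zero.2 hl
  have hMl : (0 : ℝ) < M l := by exact_mod_cast hM l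
  rw [Alg.avg_update M hM l]
  refine avg_le_of_le (by positivity) fun m => ?_
  rw [inv_mul_eq_div]
  refine div_le_div_of_nonneg_right ?_ hMl.le
  rw [← Finset.sum_filter, Finset.sum_const, nsmul_eq_mul, mul_one]
  refine le_trans (le_of_eq ?_)
    (count_line hβ (ψ₁ (cz' (Function.update m l 0)) - ψ₂ (cz' (Function.update m l 0))) p hp
      (M l))
  congr 2
  ext t
  simp only [Finset.mem_filter]
  rw [psi_update ψ₁, psi_update ψ₂, hβd]
  have : ψ₁ (cz' (Function.update m l 0)) + t * ψ₁ (Pi.single l 1) -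
      (ψ₂ (cz' (Function.update m l 0)) + t * ψ₂ (Pi.single l 1)) =
      ψ₁ (cz' (Function.update m l 0)) - ψ₂ (cz' (Function.update m l 0)) +
        t * (ψ₁ (Pi.single l 1) - ψ₂ (Pi.single l 1)) := by ring
  rw [this]

section orth

variable {J : Type} [Fintype J] [DecidableEq J] {X : Type} {mX : MeasurableSpace X}
  {μ : Measure X}

lemma abs_prod_le_one {ι : Type*} (S : Finset ι) {f : ι → ℝ} (hf : ∀ i ∈ S, |f i| ≤ 1) :
    |∏ i ∈ S, f i| ≤ 1 := by
  rw [Finset.abs_prod]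
  exact Finset.prod_le_one (fun i _ => abs_nonneg _) hf

/-- the integral of a product vanishes if one factor is the most recent one -/
lemma orth_one (F : ℝ → MeasurableSpace X) {p : ℝ} (Y : J → (κ → ℕ) → X → ℝ)
    (ψ : J → (κ → ℤ) →+ ℝ) (hY1 : ∀ j m x, |Y j m x| ≤ 1)
    (hYm : ∀ j m s, ψ j (cz' m) < s → Measurable[F s] (Y j m))
    (hY0 : ∀ j m (h : X → ℝ), Measurable[F (ψ j (cz' m) - p)] h → (∀ x, |h x| ≤ 1) →
      ∫ x, Y j m x * h x ∂μ = 0)
    (W : (κ → ℕ) → X → ℝ) (hW1 : ∀ m x, |W m x| ≤ 1) (hWm : ∀ m s, Measurable[F s] (W m))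
    (S : Finset J) {j₀ : J} (hj₀ : j₀ ∈ S) (m m' : κ → ℕ)
    (h1 : ∀ j ∈ S, j ≠ j₀ → ψ j (cz' m) < ψ j₀ (cz' m) - p)
    (h2 : ∀ j ∈ S, ψ j (cz' m') < ψ j₀ (cz' m) - p) :
    ∫ x, ((∏ j ∈ S, Y j m x) * W m x) * ((∏ j ∈ S, Y j m' x) * W m' x) ∂μ = 0 := by
  have h3 : ∀ x, ((∏ j ∈ S, Y j m x) * W m x) * ((∏ j ∈ S, Y j m' x) * W m' x) =
      Y j₀ m x * (((∏ j ∈ S.erase j₀, Y j m x) * W m x) *
        ((∏ j ∈ S, Y j m' x) * W m' x)) := by
    intro x
    rw [← Finset.mul_prod_erase S (fun j => Y j m x) hj₀]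
    ring
  simp_rw [h3]
  refine hY0 j₀ m _ ?_ fun x => ?_
  · refine Measurable.mul (Measurable.mul ?_ (hWm _ _)) (Measurable.mul ?_ (hWm _ _))
    · exact Finset.measurable_fun_prod _ fun j hj =>
        hYm j m _ (h1 j (Finset.mem_of_mem_erase hj) (Finset.ne_of_mem_erase hj))
    · exact Finset.measurable_fun_prod _ fun j hj => hYm j m' _ (h2 j hj)
  · rw [abs_mul, abs_mul, abs_mul]
    have a1 := abs_prod_le_one (S.erase j₀) (f := fun j => Y j m x) fun j _ => hY1 j m x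
    have a2 := abs_prod_le_one S (f := fun j => Y j m' x) fun j _ => hY1 j m' x
    have a3 := hW1 m x
    have a4 := hW1 m' x
    have b1 : |∏ j ∈ S.erase j₀, Y j m x| * |W m x| ≤ 1 :=
      mul_le_one₀ a1 (abs_nonneg _) a3
    have b2 : |∏ j ∈ S, Y j m' x| * |W m' x| ≤ 1 :=
      mul_le_one₀ a2 (abs_nonneg _) a4
    exact mul_le_one₀ b1 (by positivity) b2

/-- two good points whose values are far apart are orthogonal -/
lemma orth_two (F : ℝ → MeasurableSpace X) {p : ℝ} (Y : J → (κ → ℕ) → X → ℝ)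
    (ψ : J → (κ → ℤ) →+ ℝ) (hY1 : ∀ j m x, |Y j m x| ≤ 1)
    (hYm : ∀ j m s, ψ j (cz' m) < s → Measurable[F s] (Y j m))
    (hY0 : ∀ j m (h : X → ℝ), Measurable[F (ψ j (cz' m) - p)] h → (∀ x, |h x| ≤ 1) →
      ∫ x, Y j m x * h x ∂μ = 0)
    (W : (κ → ℕ) → X → ℝ) (hW1 : ∀ m x, |W m x| ≤ 1) (hWm : ∀ m s, Measurable[F s] (W m))
    (S : Finset J) (hS : S.Nonempty) (m m' : κ → ℕ)
    (hg : ∀ i j, i ≠ j → p < |ψ i (cz' m) - ψ j (cz' m)|)
    (hg' : ∀ i j, i ≠ j → p < |ψ i (cz' m') - ψ j (cz' m')|)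
    (hsep : ∀ i ∈ S, ∀ j ∈ S, p < |ψ i (cz' m) - ψ j (cz' m')|) :
    ∫ x, ((∏ j ∈ S, Y j m x) * W m x) * ((∏ j ∈ S, Y j m' x) * W m' x) ∂μ = 0 := by
  obtain ⟨i₀, hi₀, hmax⟩ := S.exists_max_image (fun j => ψ j (cz' m)) hS
  obtain ⟨j₀, hj₀, hmax'⟩ := S.exists_max_image (fun j => ψ j (cz' m')) hS
  have key : ∀ a b : ℝ, a ≤ b → p < |b - a| → a < b - p := by
    intro a b hab h
    rw [abs_of_nonneg (sub_nonneg.2 hab)] at h
    linarith
  rcases le_total (ψ j₀ (cz' m')) (ψ i₀ (cz' m)) with h | h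
  · refine orth_one F Y ψ hY1 hYm hY0 W hW1 hWm S hi₀ m m' (fun j hj hne => ?_) fun j hj => ?_
    · exact key _ _ (hmax j hj) (hg i₀ j (Ne.symm hne))
    · exact key _ _ ((hmax' j hj).trans h) (hsep i₀ hi₀ j hj)
  · have := orth_one F Y ψ hY1 hYm hY0 W hW1 hWm S hj₀ m' m (fun j hj hne => ?_) fun j hj => ?_
    · rw [← this]
      congr 1
      funext x
      ring
    · exact key _ _ (hmax' j hj) (hg' j₀ j (Ne.symm hne))
    · refine key _ _ ((hmax j hj).trans h) ?_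
      rw [abs_sub_comm]
      exact hsep j hj j₀ hj₀

/-- the point `m` is good: all forms are far apart -/
def Good (ψ : J → (κ → ℤ) →+ ℝ) (p : ℝ) (m : κ → ℕ) : Prop :=
  ∀ i j, i ≠ j → p < |ψ i (cz' m) - ψ j (cz' m)|

open Classical in
/-- the good part of the product over `S` -/
noncomputable def vv (ψ : J → (κ → ℤ) →+ ℝ) (p : ℝ) (Y : J → (κ → ℕ) → X → ℝ)
    (W : (κ → ℕ) → X → ℝ) (S : Finset J) (m : κ → ℕ) (x : X) : ℝ :=
  if Good ψ p m then (∏ j ∈ S, Y j m x) * W m x else 0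

lemma abs_vv_le (ψ : J → (κ → ℤ) →+ ℝ) (p : ℝ) {Y : J → (κ → ℕ) → X → ℝ}
    (hY1 : ∀ j m x, |Y j m x| ≤ 1) {W : (κ → ℕ) → X → ℝ} (hW1 : ∀ m x, |W m x| ≤ 1)
    (S : Finset J) (m : κ → ℕ) (x : X) : |vv ψ p Y W S m x| ≤ 1 := by
  unfold vv
  split_ifs
  · rw [abs_mul]
    exact mul_le_one₀ (abs_prod_le_one S fun j _ => hY1 j m x) (abs_nonneg _) (hW1 m x)
  · simp

lemma measurable_vv (ψ : J → (κ → ℤ) →+ ℝ) (p : ℝ) {Y : J → (κ → ℕ) → X → ℝ}
    (hY : ∀ j m, Measurable (Y j m)) {W : (κ → ℕ) → X → ℝ} (hW : ∀ m, Measurable (W m))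
    (S : Finset J) (m : κ → ℕ) : Measurable (vv ψ p Y W S m) := by
  unfold vv
  split_ifs
  · exact (Finset.measurable_fun_prod _ fun j _ => hY j m).mul (hW m)
  · exact measurable_const

open Classical in
/-- the correlation of two points of the good part -/
lemma corr_le [IsProbabilityMeasure μ] (F : ℝ → MeasurableSpace X) {p : ℝ}
    (Y : J → (κ → ℕ) → X → ℝ)
    (ψ : J → (κ → ℤ) →+ ℝ) (hY1 : ∀ j m x, |Y j m x| ≤ 1)
    (hYm : ∀ j m s, ψ j (cz' m) < s → Measurable[F s] (Y j m))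
    (hY0 : ∀ j m (h : X → ℝ), Measurable[F (ψ j (cz' m) - p)] h → (∀ x, |h x| ≤ 1) →
      ∫ x, Y j m x * h x ∂μ = 0)
    (W : (κ → ℕ) → X → ℝ) (hW1 : ∀ m x, |W m x| ≤ 1) (hWm : ∀ m s, Measurable[F s] (W m))
    (S : Finset J) (hS : S.Nonempty) (m m' : κ → ℕ) :
    ∫ x, vv ψ p Y W S m x * vv ψ p Y W S m' x ∂μ ≤
      ∑ i ∈ S, ∑ j ∈ S, if |ψ i (cz' m) - ψ j (cz' m')| ≤ p then (1 : ℝ) else 0 := by
  by_cases hsep : ∀ i ∈ S, ∀ j ∈ S, p < |ψ i (cz' m) - ψ j (cz' m')|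
  · have h0 : ∫ x, vv ψ p Y W S m x * vv ψ p Y W S m' x ∂μ = 0 := by
      by_cases hg : Good ψ p m
      · by_cases hg' : Good ψ p m'
        · have := orth_two (μ := μ) F Y ψ hY1 hYm hY0 W hW1 hWm S hS m m' hg hg' hsep
          simpa only [vv, if_pos hg, if_pos hg'] using this
        · simp [vv, if_neg hg']
      · simp [vv, if_neg hg]
    rw [h0]
    exact Finset.sum_nonneg fun i _ => Finset.sum_nonneg fun j _ => by split_ifs <;> norm_num
  · push Not at hsep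
    obtain ⟨i, hi, j, hj, hij⟩ := hsep
    have h1 : ∫ x, vv ψ p Y W S m x * vv ψ p Y W S m' x ∂μ ≤ 1 := by
      have h2 : |∫ x, vv ψ p Y W S m x * vv ψ p Y W S m' x ∂μ| ≤ 1 := by
        have := norm_integral_le_of_norm_le_const (μ := μ) (C := 1)
          (f := fun x => vv ψ p Y W S m x * vv ψ p Y W S m' x)
          (Eventually.of_forall fun x => by
            rw [Real.norm_eq_abs, abs_mul]
            exact mul_le_one₀ (abs_vv_le ψ p hY1 hW1 S m x) (abs_nonneg _)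
              (abs_vv_le ψ p hY1 hW1 S m' x))
        simpa using this
      exact (le_abs_self _).trans h2
    refine h1.trans ?_
    calc (1 : ℝ) = if |ψ i (cz' m) - ψ j (cz' m')| ≤ p then (1 : ℝ) else 0 := by rw [if_pos hij]
      _ ≤ ∑ j ∈ S, if |ψ i (cz' m) - ψ j (cz' m')| ≤ p then (1 : ℝ) else 0 :=
        Finset.single_le_sum
          (f := fun j => if |ψ i (cz' m) - ψ j (cz' m')| ≤ p then (1 : ℝ) else 0)
          (fun j _ => by split_ifs <;> norm_num) hj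
      _ ≤ _ := Finset.single_le_sum
          (f := fun i => ∑ j ∈ S, if |ψ i (cz' m) - ψ j (cz' m')| ≤ p then (1 : ℝ) else 0)
          (fun i _ => Finset.sum_nonneg fun j _ => by split_ifs <;> norm_num) hi

open Classical in
lemma bad_nonneg (ψ : J → (κ → ℤ) →+ ℝ) (p : ℝ) (m : κ → ℕ) (q : J × J) :
    0 ≤ (if q.1 ≠ q.2 then
      (if |ψ q.1 (cz' m) - ψ q.2 (cz' m)| ≤ p then (1 : ℝ) else 0) else 0) := by
  split_ifs <;> norm_num

open Classical in
lemma one_le_bad {ψ : J → (κ → ℤ) →+ ℝ} {p : ℝ} {m : κ → ℕ} (hg : ¬ Good ψ p m) :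
    (1 : ℝ) ≤ ∑ q : J × J, if q.1 ≠ q.2 then
      (if |ψ q.1 (cz' m) - ψ q.2 (cz' m)| ≤ p then (1 : ℝ) else 0) else 0 := by
  unfold Good at hg
  push Not at hg
  obtain ⟨i, j, hij, hle'⟩ := hg
  have h1 := Finset.single_le_sum (f := fun q : J × J => if q.1 ≠ q.2 then
      (if |ψ q.1 (cz' m) - ψ q.2 (cz' m)| ≤ p then (1 : ℝ) else 0) else 0)
      (fun q _ => bad_nonneg ψ p m q) (Finset.mem_univ (i, j))
  have h2 : (if (i, j).1 ≠ (i, j).2 then
      (if |ψ (i, j).1 (cz' m) - ψ (i, j).2 (cz' m)| ≤ p then (1 : ℝ) else 0) else 0) = 1 := by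
    simp [hij, hle']
  rw [h2] at h1
  exact h1

lemma integrable_bdd [IsProbabilityMeasure μ] {f : X → ℝ} (hf : Measurable f) {C : ℝ}
    (hC : ∀ x, |f x| ≤ C) : Integrable f μ :=
  Integrable.of_bound hf.aestronglyMeasurable C (Eventually.of_forall fun x => by
    rw [Real.norm_eq_abs]; exact hC x)

/-- the mean square of the averages along a line -/
lemma line_bound [IsProbabilityMeasure μ] (F : ℝ → MeasurableSpace X) (hle : ∀ t, F t ≤ mX)
    {p : ℝ} (hp : 0 ≤ p)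
    (Y : J → (κ → ℕ) → X → ℝ)
    (ψ : J → (κ → ℤ) →+ ℝ) (hY1 : ∀ j m x, |Y j m x| ≤ 1)
    (hYm : ∀ j m s, ψ j (cz' m) < s → Measurable[F s] (Y j m))
    (hY0 : ∀ j m (h : X → ℝ), Measurable[F (ψ j (cz' m) - p)] h → (∀ x, |h x| ≤ 1) →
      ∫ x, Y j m x * h x ∂μ = 0)
    (W : (κ → ℕ) → X → ℝ) (hW1 : ∀ m x, |W m x| ≤ 1) (hWm : ∀ m s, Measurable[F s] (W m))
    (S : Finset J) (hS : S.Nonempty) (l : κ) (hl : ∀ j ∈ S, ψ j (Pi.single l 1) ≠ 0)
    (m : κ → ℕ) {N : ℕ} (hN : 0 < N) :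
    ∫ x, ((N : ℝ)⁻¹ * ∑ t ∈ range N, vv ψ p Y W S (Function.update m l t) x) ^ 2 ∂μ ≤
      (∑ _i ∈ S, ∑ j ∈ S, (2 * p / |ψ j (Pi.single l 1)| + 1)) / N := by
  have hN' : (0 : ℝ) < N := by exact_mod_cast hN
  have hYM : ∀ j m, Measurable (Y j m) := fun j m =>
    (hYm j m (ψ j (cz' m) + 1) (by linarith)).mono (hle _) le_rfl
  have hWM : ∀ m, Measurable (W m) := fun m => (hWm m 0).mono (hle _) le_rfl
  set v : ℕ → X → ℝ := fun t => vv ψ p Y W S (Function.update m l t) with hv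
  have hvm : ∀ t, Measurable (v t) := fun t => measurable_vv ψ p hYM hWM S _
  have hv1 : ∀ t x, |v t x| ≤ 1 := fun t x => abs_vv_le ψ p hY1 hW1 S _ x
  have h1 : ∀ x, ((N : ℝ)⁻¹ * ∑ t ∈ range N, vv ψ p Y W S (Function.update m l t) x) ^ 2 =
      (N : ℝ)⁻¹ ^ 2 * ∑ t ∈ range N, ∑ t' ∈ range N, v t x * v t' x := by
    intro x
    rw [mul_pow, sq (∑ t ∈ range N, _), Finset.sum_mul_sum]
  simp_rw [h1]
  have hI : ∀ t t', Integrable (fun x => v t x * v t' x) μ := fun t t' =>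
    integrable_bdd ((hvm t).mul (hvm t')) (C := 1) fun x => by
      rw [abs_mul]
      exact mul_le_one₀ (hv1 t x) (abs_nonneg _) (hv1 t' x)
  rw [integral_const_mul, integral_finsetSum _ fun t _ => integrable_finsetSum _ fun t' _ =>
    hI t t']
  have h2 : ∀ t ∈ range N, ∫ x, ∑ t' ∈ range N, v t x * v t' x ∂μ ≤
      ∑ _i ∈ S, ∑ j ∈ S, (2 * p / |ψ j (Pi.single l 1)| + 1) := by
    intro t _
    rw [integral_finsetSum _ fun t' _ => hI t t']
    classical
    refine (Finset.sum_le_sum fun t' _ => corr_le (μ := μ) F Y ψ hY1 hYm hY0 W hW1 hWm S hS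
      (Function.update m l t) (Function.update m l t')).trans ?_
    rw [Finset.sum_comm]
    refine Finset.sum_le_sum fun i _ => ?_
    rw [Finset.sum_comm]
    refine Finset.sum_le_sum fun j hj => ?_
    rw [← Finset.sum_filter, Finset.sum_const, nsmul_eq_mul, mul_one]
    refine le_trans (le_of_eq ?_) (count_line (hl j hj)
      (ψ j (cz' (Function.update m l 0)) - ψ i (cz' (Function.update m l t))) p hp N)
    congr 2
    ext t'
    simp only [Finset.mem_filter]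
    rw [psi_update (ψ j) m l t', abs_sub_comm]
    have : ψ j (cz' (Function.update m l 0)) + t' * ψ j (Pi.single l 1) -
        ψ i (cz' (Function.update m l t)) = ψ j (cz' (Function.update m l 0)) -
        ψ i (cz' (Function.update m l t)) + t' * ψ j (Pi.single l 1) := by ring
    rw [this]
  calc (N : ℝ)⁻¹ ^ 2 * ∑ t ∈ range N, ∫ x, ∑ t' ∈ range N, v t x * v t' x ∂μ
      ≤ (N : ℝ)⁻¹ ^ 2 * ∑ t ∈ range N, ∑ _i ∈ S, ∑ j ∈ S, (2 * p / |ψ j (Pi.single l 1)| + 1) := by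
        refine mul_le_mul_of_nonneg_left (Finset.sum_le_sum h2) (by positivity)
    _ = (∑ _i ∈ S, ∑ j ∈ S, (2 * p / |ψ j (Pi.single l 1)| + 1)) / N := by
        rw [Finset.sum_const, card_range, nsmul_eq_mul]
        field_simp

end orth

lemma avg_sq_le (M : κ → ℕ) (hM : ∀ l, 0 < M l) (Φ : (κ → ℕ) → ℝ) :
    (avg M Φ) ^ 2 ≤ avg M fun m => Φ m ^ 2 := by
  have hP := prod_cast_pos hM
  unfold avg
  have h := sq_sum_le_card_mul_sum_sq (s := box M) (f := Φ)
  rw [card_box] at h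
  push_cast at h
  rw [mul_pow]
  calc (∏ l, (M l : ℝ))⁻¹ ^ 2 * (∑ m ∈ box M, Φ m) ^ 2
      ≤ (∏ l, (M l : ℝ))⁻¹ ^ 2 * ((∏ l, (M l : ℝ)) * ∑ m ∈ box M, Φ m ^ 2) := by gcongr
    _ = (∏ l, (M l : ℝ))⁻¹ * ∑ m ∈ box M, Φ m ^ 2 := by field_simp

open Classical in
/-- the mean square of the averages of the good part -/
lemma mean_sq_le {J : Type} [Fintype J] [DecidableEq J] {X : Type} {mX : MeasurableSpace X}
    {μ : Measure X} [IsProbabilityMeasure μ] (F : ℝ → MeasurableSpace X) (hle : ∀ t, F t ≤ mX)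
    {p : ℝ} (hp : 0 ≤ p)
    (Y : J → (κ → ℕ) → X → ℝ)
    (ψ : J → (κ → ℤ) →+ ℝ) (hY1 : ∀ j m x, |Y j m x| ≤ 1)
    (hYm : ∀ j m s, ψ j (cz' m) < s → Measurable[F s] (Y j m))
    (hY0 : ∀ j m (h : X → ℝ), Measurable[F (ψ j (cz' m) - p)] h → (∀ x, |h x| ≤ 1) →
      ∫ x, Y j m x * h x ∂μ = 0)
    (hYinv : ∀ j l, ψ j (Pi.single l 1) = 0 → ∀ m x, Y j (m + Pi.single l 1) x = Y j m x)
    (W : (κ → ℕ) → X → ℝ) (hW1 : ∀ m x, |W m x| ≤ 1) (hWm : ∀ m s, Measurable[F s] (W m))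
    (l : κ) (hvis : ∃ j, ψ j (Pi.single l 1) ≠ 0)
    (M : κ → ℕ) (hM : ∀ l, 0 < M l) :
    ∫ x, (avg M fun m => vv ψ p Y W Finset.univ m x) ^ 2 ∂μ ≤
      (∑ _i ∈ (Finset.univ.filter fun j => ψ j (Pi.single l 1) ≠ 0),
        ∑ j ∈ (Finset.univ.filter fun j => ψ j (Pi.single l 1) ≠ 0),
          (2 * p / |ψ j (Pi.single l 1)| + 1)) / M l := by
  have hYM : ∀ j m, Measurable (Y j m) := fun j m =>
    (hYm j m (ψ j (cz' m) + 1) (by linarith)).mono (hle _) le_rfl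
  have hWM : ∀ m, Measurable (W m) := fun m => (hWm m 0).mono (hle _) le_rfl
  set S : Finset J := Finset.univ.filter fun j => ψ j (Pi.single l 1) ≠ 0 with hS
  have hMl : (0 : ℝ) < M l := by exact_mod_cast hM l
  have hSne : S.Nonempty := by
    obtain ⟨j, hj⟩ := hvis
    exact ⟨j, by simp [hS, hj]⟩
  -- pointwise bound
  have hpt : ∀ x, (avg M fun m => vv ψ p Y W Finset.univ m x) ^ 2 ≤ avg M fun m =>
      ((M l : ℝ)⁻¹ * ∑ t ∈ range (M l), vv ψ p Y W S (Function.update m l t) x) ^ 2 := by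
    intro x
    rw [Alg.avg_update M hM l]
    refine (avg_sq_le M hM _).trans (avg_mono M fun m => ?_)
    rw [← sq_abs ((M l : ℝ)⁻¹ * ∑ t ∈ range (M l), vv ψ p Y W Finset.univ (Function.update m l t) x),
      ← sq_abs ((M l : ℝ)⁻¹ * ∑ t ∈ range (M l), vv ψ p Y W S (Function.update m l t) x)]
    refine pow_le_pow_left₀ (abs_nonneg _) ?_ 2
    have h3 : ∑ t ∈ range (M l), vv ψ p Y W Finset.univ (Function.update m l t) x =
        (∏ j ∈ Finset.univ.filter (fun j => ¬ ψ j (Pi.single l 1) ≠ 0),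
          Y j (Function.update m l 0) x) *
        ∑ t ∈ range (M l), vv ψ p Y W S (Function.update m l t) x := by
      rw [Finset.mul_sum]
      refine Finset.sum_congr rfl fun t _ => ?_
      simp only [vv]
      split_ifs with hg
      · rw [← Finset.prod_filter_mul_prod_filter_not Finset.univ
          (fun j => ψ j (Pi.single l 1) ≠ 0)]
        have h4 : ∏ j ∈ Finset.univ.filter (fun j => ¬ ψ j (Pi.single l 1) ≠ 0),
            Y j (Function.update m l t) x =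
            ∏ j ∈ Finset.univ.filter (fun j => ¬ ψ j (Pi.single l 1) ≠ 0),
            Y j (Function.update m l 0) x := by
          refine Finset.prod_congr rfl fun j hj => ?_
          have hj' : ψ j (Pi.single l 1) = 0 := by
            have := (Finset.mem_filter.1 hj).2
            push Not at this
            exact this
          exact inv_update (hYinv j l hj') m t x
        rw [h4]
        ring
      · ring
    rw [h3, abs_mul, abs_mul, abs_mul]
    have h5 := abs_prod_le_one (Finset.univ.filter (fun j => ¬ ψ j (Pi.single l 1) ≠ 0))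
      (f := fun j => Y j (Function.update m l 0) x) fun j _ => hY1 j _ x
    calc |(M l : ℝ)⁻¹| * (|∏ j ∈ Finset.univ.filter (fun j => ¬ ψ j (Pi.single l 1) ≠ 0),
          Y j (Function.update m l 0) x| *
          |∑ t ∈ range (M l), vv ψ p Y W S (Function.update m l t) x|)
        ≤ |(M l : ℝ)⁻¹| * (1 *
          |∑ t ∈ range (M l), vv ψ p Y W S (Function.update m l t) x|) := by gcongr
      _ = _ := by rw [one_mul]
  -- integrate
  have hvm : ∀ m, Measurable fun x =>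
      ((M l : ℝ)⁻¹ * ∑ t ∈ range (M l), vv ψ p Y W S (Function.update m l t) x) ^ 2 :=
    fun m => ((Finset.measurable_fun_sum _ fun t _ =>
      measurable_vv ψ p hYM hWM S _).const_mul _).pow_const 2
  have hvb : ∀ m x, |((M l : ℝ)⁻¹ * ∑ t ∈ range (M l),
      vv ψ p Y W S (Function.update m l t) x) ^ 2| ≤ 1 := by
    intro m x
    rw [abs_pow]
    refine pow_le_one₀ (abs_nonneg _) ?_
    rw [abs_mul, abs_of_pos (inv_pos.2 hMl), inv_mul_le_iff₀ hMl, mul_one]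
    refine (Finset.abs_sum_le_sum_abs _ _).trans ?_
    refine (Finset.sum_le_sum fun t _ => abs_vv_le ψ p hY1 hW1 S _ x).trans ?_
    simp
  have hI : ∀ m, Integrable (fun x =>
      ((M l : ℝ)⁻¹ * ∑ t ∈ range (M l), vv ψ p Y W S (Function.update m l t) x) ^ 2) μ :=
    fun m => integrable_bdd (hvm m) (hvb m)
  calc ∫ x, (avg M fun m => vv ψ p Y W Finset.univ m x) ^ 2 ∂μ
      ≤ ∫ x, (avg M fun m => ((M l : ℝ)⁻¹ * ∑ t ∈ range (M l),
          vv ψ p Y W S (Function.update m l t) x) ^ 2) ∂μ := by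
        refine integral_mono_of_nonneg (Eventually.of_forall fun x => sq_nonneg _) ?_
          (Eventually.of_forall hpt)
        unfold avg
        exact (integrable_finsetSum _ fun m _ => hI m).const_mul _
    _ = avg M fun m => ∫ x, ((M l : ℝ)⁻¹ * ∑ t ∈ range (M l),
          vv ψ p Y W S (Function.update m l t) x) ^ 2 ∂μ := by
        unfold avg
        rw [integral_const_mul, integral_finsetSum _ fun m _ => hI m]
    _ ≤ _ := by
        refine avg_le_of_le (div_nonneg (Finset.sum_nonneg fun i _ =>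
            Finset.sum_nonneg fun j _ => by positivity) hMl.le) fun m => ?_
        exact line_bound F hle hp Y ψ hY1 hYm hY0 W hW1 hWm S hSne l
          (fun j hj => (Finset.mem_filter.1 hj).2) m (hM l)

/-- mean-square bounds imply convergence -/
lemma ae_of_bound [Nonempty κ] {X : Type} {mX : MeasurableSpace X} {μ : Measure X}
    [IsProbabilityMeasure μ] {u : (κ → ℕ) → X → ℝ} (hum : ∀ m, Measurable (u m))
    (hu1 : ∀ m x, |u m x| ≤ 1) (C : κ → ℝ) (hC0 : ∀ l, 0 ≤ C l)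
    (hmain : ∀ M : κ → ℕ, (∀ l, 0 < M l) → ∀ l,
      ∫ x, (avg M fun m => u m x) ^ 2 ∂μ ≤ C l / M l) :
    ∀ᵐ x ∂μ, Tendsto (fun M : κ → ℕ => avg M fun m => u m x) atTop (𝓝 0) := by
  obtain ⟨A, hA⟩ : ∃ A : ℝ, A = ∑ l, C l := ⟨_, rfl⟩
  have hA0 : 0 ≤ A := by rw [hA]; exact Finset.sum_nonneg fun l _ => hC0 l
  obtain ⟨c, hc⟩ : ∃ c : ℝ, c = (1 + A)⁻¹ := ⟨_, rfl⟩
  have hA1 : 0 < 1 + A := by linarith
  have hc0 : 0 < c := by rw [hc]; exact inv_pos.2 hA1
  have hc1 : c ≤ 1 := by rw [hc]; exact inv_le_one_of_one_le₀ (le_add_of_nonneg_right hA0)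
  have hae := Alg.ae_tendsto (μ := μ) (u := fun m x => c * u m x)
    (fun m => (hum m).const_mul c) (fun m x => by
      rw [abs_mul, abs_of_pos hc0]
      exact mul_le_one₀ hc1 (abs_nonneg _) (hu1 m x)) 0 (by
    intro M hM l
    have hMl : (0 : ℝ) < M l := by exact_mod_cast hM l
    have h1 : ∀ x, (avg M fun m => c * u m x) ^ 2 = c ^ 2 * (avg M fun m => u m x) ^ 2 := by
      intro x
      rw [avg_smul, mul_pow]
    simp_rw [h1]
    rw [integral_const_mul]
    have h2 : Alg.bt 0 (M l) = 4 / M l := by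
      unfold Alg.bt
      rw [pow_zero, Real.rpow_neg_one]
      rfl
    rw [h2]
    have h3 : C l ≤ A := by
      rw [hA]
      exact Finset.single_le_sum (fun l _ => hC0 l) (Finset.mem_univ l)
    have h5 : c * C l ≤ 1 := by
      rw [hc, inv_mul_le_iff₀ hA1]
      linarith
    have h4 : c ^ 2 * C l ≤ 4 := by
      have h6 : c ^ 2 * C l = c * (c * C l) := by ring
      rw [h6]
      have h7 : 0 ≤ c * C l := mul_nonneg hc0.le (hC0 l)
      calc c * (c * C l) ≤ 1 * 1 := mul_le_mul hc1 h5 h7 zero_le_one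
        _ ≤ 4 := by norm_num
    calc c ^ 2 * ∫ x, (avg M fun m => u m x) ^ 2 ∂μ ≤ c ^ 2 * (C l / M l) :=
          mul_le_mul_of_nonneg_left (hmain M hM l) (by positivity)
      _ = c ^ 2 * C l / M l := by ring
      _ ≤ 4 / M l := div_le_div_of_nonneg_right h4 hMl.le)
  filter_upwards [hae] with x hx
  have := hx.const_mul c⁻¹
  rw [mul_zero] at this
  refine this.congr fun M => ?_
  rw [avg_smul, ← mul_assoc, inv_mul_cancel₀ hc0.ne', one_mul]

open Classical in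
lemma tendsto_bad {J : Type} [Fintype J] {ψ : J → (κ → ℤ) →+ ℝ}
    (hne : ∀ i j, i ≠ j → ψ i ≠ ψ j) {p : ℝ} (hp : 0 ≤ p) :
    Tendsto (fun M : κ → ℕ => ∑ q : J × J, if q.1 ≠ q.2 then
      avg M (fun m => if |ψ q.1 (cz' m) - ψ q.2 (cz' m)| ≤ p then (1 : ℝ) else 0) else 0)
      atTop (𝓝 0) := by
  have h1 : ∀ q : J × J, Tendsto (fun M : κ → ℕ => if q.1 ≠ q.2 then
    avg M (fun m => if |ψ q.1 (cz' m) - ψ q.2 (cz' m)| ≤ p then (1 : ℝ) else 0) else 0)
    atTop (𝓝 0) := by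
    intro q
    by_cases hq : q.1 ≠ q.2
    · simp only [if_pos hq]
      obtain ⟨l, hl⟩ := exists_sep (hne _ _ hq)
      have h2 : Tendsto (fun M : κ → ℕ =>
          (2 * p / |ψ q.1 (Pi.single l 1) - ψ q.2 (Pi.single l 1)| + 1) / (M l : ℝ)) atTop
          (𝓝 0) :=
        (tendsto_const_div_atTop_nhds_zero_nat _).comp (Alg.tendsto_coord l)
      refine tendsto_of_tendsto_of_tendsto_of_le_of_le' tendsto_const_nhds h2
        (Eventually.of_forall fun M => avg_nonneg M fun m => by split_ifs <;> norm_num) ?_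
      filter_upwards [eventually_ge_atTop (fun _ => 1)] with M hM
      exact bad_density hl hp M fun l => hM l
    · simp only [if_neg hq]
      exact tendsto_const_nhds
  have := tendsto_finsetSum (Finset.univ : Finset (J × J)) fun q _ => h1 q
  simpa using this

end CoreAux

open CoreAux

theorem core_ae {κ : Type} [Fintype κ] [DecidableEq κ] [Nonempty κ] {J : Type} [Fintype J]
    [DecidableEq J] {X : Type} {mX : MeasurableSpace X} {μ : Measure X} [IsProbabilityMeasure μ]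
    (F : ℝ → MeasurableSpace X) (hmono : Monotone F) (hle : ∀ t, F t ≤ mX)
    (ψ : J → (κ → ℤ) →+ ℝ) (hne : ∀ i j, i ≠ j → ψ i ≠ ψ j)
    (hvis : ∀ l : κ, ∃ j, ψ j (Pi.single l 1) ≠ 0) (p : ℝ) (hp : 0 ≤ p)
    (Y : J → (κ → ℕ) → X → ℝ) (hY1 : ∀ j m x, |Y j m x| ≤ 1)
    (hYm : ∀ j m s, ψ j (cz' m) < s → Measurable[F s] (Y j m))
    (hY0 : ∀ j m (h : X → ℝ), Measurable[F (ψ j (cz' m) - p)] h → (∀ x, |h x| ≤ 1) →
      ∫ x, Y j m x * h x ∂μ = 0)
    (hYinv : ∀ j l, ψ j (Pi.single l 1) = 0 → ∀ m x, Y j (m + Pi.single l 1) x = Y j m x)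
    (W : (κ → ℕ) → X → ℝ) (hW1 : ∀ m x, |W m x| ≤ 1) (hWm : ∀ m s, Measurable[F s] (W m)) :
    ∀ᵐ x ∂μ, Tendsto (fun M : κ → ℕ => avg M fun m => (∏ j, Y j m x) * W m x) atTop (𝓝 0) := by
  classical
  have hYM : ∀ j m, Measurable (Y j m) := fun j m =>
    (hYm j m (ψ j (cz' m) + 1) (by linarith)).mono (hle _) le_rfl
  have hWM : ∀ m, Measurable (W m) := fun m => (hWm m 0).mono (hle _) le_rfl
  -- the good part
  set u : (κ → ℕ) → X → ℝ := vv ψ p Y W Finset.univ with hu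
  have hu1 : ∀ m x, |u m x| ≤ 1 := fun m x => abs_vv_le ψ p hY1 hW1 _ m x
  have hum : ∀ m, Measurable (u m) := fun m => measurable_vv ψ p hYM hWM _ m
  have hae := ae_of_bound (μ := μ) hum hu1 _
    (fun l => Finset.sum_nonneg fun i _ => Finset.sum_nonneg fun j _ => by positivity)
    (fun M hM l => mean_sq_le F hle hp Y ψ hY1 hYm hY0 hYinv W hW1 hWm l (hvis l) M hM)
  have hbad := tendsto_bad hne hp
  filter_upwards [hae] with x h1
  have h2 : Tendsto (fun M : κ → ℕ => (avg M fun m => (∏ j, Y j m x) * W m x) -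
      avg M fun m => u m x) atTop (𝓝 0) := by
    refine squeeze_zero_norm (fun M => ?_) hbad
    rw [Real.norm_eq_abs, ← avg_sub]
    refine (abs_avg_le M _).trans ?_
    have h3 : ∀ m, |(∏ j, Y j m x) * W m x - u m x| ≤ ∑ q : J × J, if q.1 ≠ q.2 then
        (if |ψ q.1 (cz' m) - ψ q.2 (cz' m)| ≤ p then (1 : ℝ) else 0) else 0 := by
      intro m
      by_cases hg : Good ψ p m
      · simp only [hu, vv, if_pos hg, sub_self, abs_zero]
        exact Finset.sum_nonneg fun q _ => bad_nonneg ψ p m q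
      · have h4 : |(∏ j, Y j m x) * W m x - u m x| ≤ 1 := by
          simp only [hu, vv, if_neg hg, sub_zero]
          rw [abs_mul]
          exact mul_le_one₀ (abs_prod_le_one _ fun j _ => hY1 j m x) (abs_nonneg _) (hW1 m x)
        exact h4.trans (one_le_bad hg)
    refine (avg_mono M h3).trans (le_of_eq ?_)
    unfold avg
    rw [Finset.sum_comm, Finset.mul_sum]
    refine Finset.sum_congr rfl fun q _ => ?_
    by_cases hq : q.1 ≠ q.2
    · simp only [if_pos hq]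
    · simp only [if_neg hq]
      simp
  have h3 := h2.add h1
  simp only [sub_add_cancel, add_zero] at h3
  exact h3

end Pool.Agent.Lib.Pf720pi
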