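import Mathlib

/-!
# Conditional entropy of finite-valued maps
-/

set_option autoImplicit false
set_option linter.unusedSectionVars false

open MeasureTheory Filter Topology
open scoped ENNReal

namespace Pool.Agent.Lib.Pf720pi

/-- conditional entropy of the finite-valued map `Z` given the sub-σ-algebra `m` -/
noncomputable def cH {X : Type} {mX : MeasurableSpace X} (μ : Measure X) {ι : Type} [Fintype ι]
    (m : MeasurableSpace X) (Z : X → ι) : ℝ :=
  ∑ i, ∫ x, Real.negMulLog ((μ[(Z ⁻¹' {i}).indicator (fun _ => (1 : ℝ)) | m]) x) ∂μ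

variable {X : Type} {ι ι' : Type} [Fintype ι] [Fintype ι']

section aux

variable {m : MeasurableSpace X} {mX : MeasurableSpace X} (μ : Measure X) [IsProbabilityMeasure μ]

lemma integrable_ind {A : Set X} (hA : MeasurableSet A) :
    Integrable (A.indicator (fun _ => (1 : ℝ))) μ :=
  (integrable_const (1:ℝ)).indicator hA

lemma condExp_ind_nonneg (m : MeasurableSpace X) (A : Set X) :
    ∀ᵐ x ∂μ, 0 ≤ (μ[A.indicator (fun _ => (1 : ℝ)) | m]) x := by
  apply condExp_nonneg
  refine Eventually.of_forall (fun x => ?_)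
  exact Set.indicator_nonneg (fun _ _ => zero_le_one) x

lemma condExp_ind_mono (m : MeasurableSpace X) {A B : Set X} (hA : MeasurableSet[mX] A)
    (hB : MeasurableSet[mX] B) (hAB : A ⊆ B) :
    ∀ᵐ x ∂μ, (μ[A.indicator (fun _ => (1 : ℝ)) | m]) x ≤ (μ[B.indicator (fun _ => (1 : ℝ)) | m]) x := by
  apply condExp_mono (integrable_ind μ hA) (integrable_ind μ hB)
  refine Eventually.of_forall (fun x => ?_)
  exact Set.indicator_le_indicator_of_subset hAB (fun _ => zero_le_one) x

lemma condExp_ind_le_one (hm : m ≤ mX) {A : Set X} (hA : MeasurableSet A) :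
    ∀ᵐ x ∂μ, (μ[A.indicator (fun _ => (1 : ℝ)) | m]) x ≤ 1 := by
  have h := condExp_mono (m := m) (μ := μ) (integrable_ind μ hA) (integrable_const (1:ℝ))
    (Eventually.of_forall (fun x => by
      show A.indicator (fun _ => (1 : ℝ)) x ≤ 1
      exact Set.indicator_le_self' (fun _ _ => zero_le_one) x))
  rw [condExp_const hm] at h
  exact h

lemma integrable_nml_of_bdd {f : X → ℝ} (hf : AEStronglyMeasurable f μ)
    (h0 : ∀ᵐ x ∂μ, 0 ≤ f x) (h1 : ∀ᵐ x ∂μ, f x ≤ 1) :
    Integrable (fun x => Real.negMulLog (f x)) μ := by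
  refine Integrable.of_bound (Real.continuous_negMulLog.comp_aestronglyMeasurable hf) 1 ?_
  filter_upwards [h0, h1] with x hx0 hx1
  rw [Real.norm_eq_abs, abs_of_nonneg (Real.negMulLog_nonneg hx0 hx1)]
  have := Real.negMulLog_le_one_sub_self hx0
  linarith

lemma integrable_nml (hm : m ≤ mX) {A : Set X} (hA : MeasurableSet A) :
    Integrable (fun x => Real.negMulLog ((μ[A.indicator (fun _ => (1 : ℝ)) | m]) x)) μ :=
  integrable_nml_of_bdd μ integrable_condExp.aestronglyMeasurable (condExp_ind_nonneg μ m A)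
    (condExp_ind_le_one μ hm hA)

end aux

theorem cH_nonneg {m : MeasurableSpace X} {mX : MeasurableSpace X} (μ : Measure X)
    [IsProbabilityMeasure μ] (hm : m ≤ mX) (Z : X → ι)
    (hZ : ∀ i, MeasurableSet (Z ⁻¹' {i})) : 0 ≤ cH μ m Z := by
  unfold cH
  apply Finset.sum_nonneg
  intro i _
  apply integral_nonneg_of_ae
  filter_upwards [condExp_ind_nonneg μ m (Z ⁻¹' {i}), condExp_ind_le_one μ hm (hZ i)] with x h0 h1
  exact Real.negMulLog_nonneg h0 h1

theorem cH_le_card {m : MeasurableSpace X} {mX : MeasurableSpace X} (μ : Measure X)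
    [IsProbabilityMeasure μ] (hm : m ≤ mX) (Z : X → ι)
    (hZ : ∀ i, MeasurableSet (Z ⁻¹' {i})) : cH μ m Z ≤ Fintype.card ι := by
  unfold cH
  have : ∀ i ∈ (Finset.univ : Finset ι), ∫ x, Real.negMulLog
      ((μ[(Z ⁻¹' {i}).indicator (fun _ => (1 : ℝ)) | m]) x) ∂μ ≤ 1 := by
    intro i _
    have h : ∫ x, Real.negMulLog
      ((μ[(Z ⁻¹' {i}).indicator (fun _ => (1 : ℝ)) | m]) x) ∂μ ≤ ∫ _, (1:ℝ) ∂μ := by
      apply integral_mono_ae (integrable_nml μ hm (hZ i)) (integrable_const _)
      filter_upwards [condExp_ind_nonneg μ m (Z ⁻¹' {i})] with x h0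
      have := Real.negMulLog_le_one_sub_self h0
      linarith
    simpa using h
  calc _ ≤ ∑ i : ι, (1:ℝ) := Finset.sum_le_sum this
    _ = _ := by simp

theorem cH_bot {mX : MeasurableSpace X} (μ : Measure X)
    [IsProbabilityMeasure μ] (Z : X → ι) (hZ : ∀ i, MeasurableSet (Z ⁻¹' {i})) :
    cH μ ⊥ Z = ∑ i, Real.negMulLog (μ.real (Z ⁻¹' {i})) := by
  unfold cH
  apply Finset.sum_congr rfl
  intro i _
  rw [condExp_bot]
  simp only [integral_const, probReal_univ, smul_eq_mul, one_mul]
  rw [integral_indicator_const _ (hZ i)]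
  simp

theorem cH_anti {m₁ m₂ : MeasurableSpace X} {mX : MeasurableSpace X} (μ : Measure X)
    [IsProbabilityMeasure μ] (h12 : m₁ ≤ m₂) (h2 : m₂ ≤ mX) (Z : X → ι)
    (hZ : ∀ i, MeasurableSet (Z ⁻¹' {i})) : cH μ m₂ Z ≤ cH μ m₁ Z := by
  unfold cH
  apply Finset.sum_le_sum
  intro i _
  set g := μ[(Z ⁻¹' {i}).indicator (fun _ => (1 : ℝ)) | m₂] with hg
  have hg0 : ∀ᵐ x ∂μ, 0 ≤ g x := condExp_ind_nonneg μ m₂ (Z ⁻¹' {i})
  have hg1 : ∀ᵐ x ∂μ, g x ≤ 1 := condExp_ind_le_one μ h2 (hZ i)
  have hmem : ∀ᵐ x ∂μ, g x ∈ Set.Icc (0:ℝ) 1 := by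
    filter_upwards [hg0, hg1] with x a b using ⟨a, b⟩
  have hint : Integrable (Real.negMulLog ∘ g) μ := integrable_nml μ h2 (hZ i)
  have hconc : ConcaveOn ℝ (Set.Icc (0:ℝ) 1) Real.negMulLog :=
    Real.concaveOn_negMulLog.subset (fun x hx => hx.1) (convex_Icc 0 1)
  have hJ := hconc.condExp_map_le (μ := μ) (h12.trans h2)
    (Real.continuous_negMulLog.upperSemicontinuous.upperSemicontinuousOn _) hmem isClosed_Icc
    integrable_condExp hint
  have htower : μ[g | m₁] =ᵐ[μ] μ[(Z ⁻¹' {i}).indicator (fun _ => (1 : ℝ)) | m₁] :=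
    condExp_condExp_of_le h12 h2
  calc ∫ x, Real.negMulLog (g x) ∂μ = ∫ x, (μ[Real.negMulLog ∘ g | m₁]) x ∂μ := by
        rw [integral_condExp (h12.trans h2)]; rfl
    _ ≤ ∫ x, Real.negMulLog ((μ[(Z ⁻¹' {i}).indicator (fun _ => (1 : ℝ)) | m₁]) x) ∂μ := by
        apply integral_mono_ae integrable_condExp (integrable_nml μ (h12.trans h2) (hZ i))
        filter_upwards [hJ, htower] with x h1 h2
        rw [Function.comp_apply, h2] at h1
        exact h1

/-- measurable sets of `m ⊔ σ(Z')` -/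
lemma sup_comap_structure {m : MeasurableSpace X} (Z' : X → ι') {S : Set X}
    (hS : MeasurableSet[m ⊔ MeasurableSpace.comap Z' ⊤] S) :
    ∀ j, ∃ C, MeasurableSet[m] C ∧ S ∩ Z' ⁻¹' {j} = C ∩ Z' ⁻¹' {j} := by
  let M : MeasurableSpace X :=
    { MeasurableSet' := fun S => ∀ j, ∃ C, MeasurableSet[m] C ∧ S ∩ Z' ⁻¹' {j} = C ∩ Z' ⁻¹' {j}
      measurableSet_empty := fun j => ⟨∅, MeasurableSet.empty, rfl⟩
      measurableSet_compl := by
        intro S hS j
        obtain ⟨C, hC, h⟩ := hS j
        refine ⟨Cᶜ, hC.compl, ?_⟩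
        ext x
        have := Set.ext_iff.1 h x
        simp only [Set.mem_inter_iff, Set.mem_compl_iff] at this ⊢
        tauto
      measurableSet_iUnion := by
        intro f hf j
        choose C hC h using fun n => hf n j
        refine ⟨⋃ n, C n, MeasurableSet.iUnion hC, ?_⟩
        rw [Set.iUnion_inter, Set.iUnion_inter]
        exact Set.iUnion_congr h }
  have h1 : m ≤ M := fun S hS j => ⟨S, hS, rfl⟩
  have h2 : MeasurableSpace.comap Z' ⊤ ≤ M := by
    rintro S ⟨T, -, rfl⟩ j
    by_cases hj : j ∈ T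
    · refine ⟨Set.univ, @MeasurableSet.univ X m, ?_⟩
      ext x
      simp only [Set.mem_inter_iff, Set.mem_preimage, Set.mem_singleton_iff, Set.mem_univ, true_and]
      constructor
      · exact fun h => h.2
      · intro h; exact ⟨by rw [h]; exact hj, h⟩
    · refine ⟨∅, @MeasurableSet.empty X m, ?_⟩
      ext x
      simp only [Set.mem_inter_iff, Set.mem_preimage, Set.mem_singleton_iff, Set.mem_empty_iff_false,
        false_and, iff_false, not_and]
      intro h1 h2
      rw [h2] at h1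
      exact hj h1
  exact (sup_le h1 h2) S hS

lemma comap_le_of_preimage {mX : MeasurableSpace X} (Z' : X → ι')
    (hZ' : ∀ i, MeasurableSet (Z' ⁻¹' {i})) : MeasurableSpace.comap Z' ⊤ ≤ mX := by
  rintro S ⟨T, -, rfl⟩
  have : Z' ⁻¹' T = ⋃ j ∈ T, Z' ⁻¹' {j} := by
    ext x; simp
  rw [this]
  exact MeasurableSet.biUnion (Set.toFinite T).countable (fun j _ => hZ' j)

section chain

variable {m : MeasurableSpace X} {mX : MeasurableSpace X} (μ : Measure X) [IsProbabilityMeasure μ]

lemma integral_ind_mul (hm : m ≤ mX) {B : Set X} (hB : MeasurableSet B) {r : X → ℝ}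
    (hr : StronglyMeasurable[m] r) (hb : ∀ᵐ x ∂μ, ‖r x‖ ≤ 1) {C : Set X} (hC : MeasurableSet[m] C) :
    ∫ x in C, r x * B.indicator (fun _ => (1:ℝ)) x ∂μ =
      ∫ x in C, r x * (μ[B.indicator (fun _ => (1 : ℝ)) | m]) x ∂μ := by
  have h := condExp_stronglyMeasurable_mul_of_bound (μ := μ) hm hr (integrable_ind μ hB) 1 hb
  have hint : Integrable (r * B.indicator (fun _ => (1:ℝ))) μ :=
    (integrable_ind μ hB).bdd_mul (hr.mono hm).aestronglyMeasurable hb
  have h2 := setIntegral_condExp hm hint hC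
  calc ∫ x in C, r x * B.indicator (fun _ => (1:ℝ)) x ∂μ
      = ∫ x in C, (μ[r * B.indicator (fun _ => (1:ℝ)) | m]) x ∂μ := by rw [h2]; rfl
    _ = _ := by
      apply setIntegral_congr_ae (hm C hC)
      filter_upwards [h] with x hx _
      rw [hx]; rfl

end chain

/-- chain rule -/
theorem cH_pair {m : MeasurableSpace X} {mX : MeasurableSpace X} (μ : Measure X)
    [IsProbabilityMeasure μ] (hm : m ≤ mX) (Z : X → ι) (Z' : X → ι')
    (hZ : ∀ i, MeasurableSet (Z ⁻¹' {i})) (hZ' : ∀ i, MeasurableSet (Z' ⁻¹' {i})) :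
    cH μ m (fun x => (Z x, Z' x)) = cH μ m Z' + cH μ (m ⊔ MeasurableSpace.comap Z' ⊤) Z := by
  classical
  set m' := m ⊔ MeasurableSpace.comap Z' ⊤ with hm'
  have hmm' : m ≤ m' := le_sup_left
  have hZ'm' : MeasurableSpace.comap Z' ⊤ ≤ m' := le_sup_right
  have hm'X : m' ≤ mX := sup_le hm (comap_le_of_preimage Z' hZ')
  -- notation
  set q : ι' → X → ℝ := fun j => μ[(Z' ⁻¹' {j}).indicator (fun _ => (1 : ℝ)) | m] with hq
  set qq : ι → ι' → X → ℝ := fun i j =>
    μ[(Z ⁻¹' {i} ∩ Z' ⁻¹' {j}).indicator (fun _ => (1 : ℝ)) | m] with hqq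
  set r : ι → ι' → X → ℝ := fun i j x => qq i j x / q j x with hr
  have hAB : ∀ i j, MeasurableSet[mX] (Z ⁻¹' {i} ∩ Z' ⁻¹' {j}) := fun i j => (hZ i).inter (hZ' j)
  have hrm : ∀ i j, StronglyMeasurable[m] (r i j) := by
    intro i j
    have h1 : Measurable[m] (qq i j) := stronglyMeasurable_condExp.measurable
    have h2 : Measurable[m] (q j) := stronglyMeasurable_condExp.measurable
    exact (h1.div h2).stronglyMeasurable
  have hq0 : ∀ j, ∀ᵐ x ∂μ, 0 ≤ q j x := fun j => condExp_ind_nonneg μ m _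
  have hqq0 : ∀ i j, ∀ᵐ x ∂μ, 0 ≤ qq i j x := fun i j => condExp_ind_nonneg μ m _
  have hqqq : ∀ i j, ∀ᵐ x ∂μ, qq i j x ≤ q j x := fun i j =>
    condExp_ind_mono μ m (hAB i j) (hZ' j) Set.inter_subset_right
  have hq1 : ∀ j, ∀ᵐ x ∂μ, q j x ≤ 1 := fun j => condExp_ind_le_one μ hm (hZ' j)
  have hr0 : ∀ i j, ∀ᵐ x ∂μ, 0 ≤ r i j x := by
    intro i j
    filter_upwards [hq0 j, hqq0 i j] with x h1 h2
    exact div_nonneg h2 h1
  have hr1 : ∀ i j, ∀ᵐ x ∂μ, r i j x ≤ 1 := by
    intro i j
    filter_upwards [hq0 j, hqqq i j] with x h1 h2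
    exact div_le_one_of_le₀ h2 h1
  have hrb : ∀ i j, ∀ᵐ x ∂μ, ‖r i j x‖ ≤ 1 := by
    intro i j
    filter_upwards [hr0 i j, hr1 i j] with x h1 h2
    rw [Real.norm_eq_abs, abs_of_nonneg h1]; exact h2
  have hrq : ∀ i j, ∀ᵐ x ∂μ, r i j x * q j x = qq i j x := by
    intro i j
    filter_upwards [hqq0 i j, hqqq i j] with x h1 h2
    by_cases h : q j x = 0
    · rw [h] at h2 ⊢
      rw [mul_zero]; linarith
    · exact div_mul_cancel₀ _ h
  have hsum : ∀ j, ∀ᵐ x ∂μ, ∑ i, qq i j x = q j x := by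
    intro j
    have h1 := condExp_finsetSum (μ := μ) (s := (Finset.univ : Finset ι))
      (f := fun i => (Z ⁻¹' {i} ∩ Z' ⁻¹' {j}).indicator (fun _ => (1 : ℝ)))
      (fun i _ => integrable_ind μ (hAB i j)) m
    have h2 : (∑ i : ι, (Z ⁻¹' {i} ∩ Z' ⁻¹' {j}).indicator (fun _ => (1 : ℝ))) =
        (Z' ⁻¹' {j}).indicator (fun _ => (1 : ℝ)) := by
      ext x
      rw [Finset.sum_apply]
      by_cases hx : Z' x = j
      · rw [Finset.sum_eq_single (Z x)]
        · rw [Set.indicator_of_mem, Set.indicator_of_mem]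
          · exact hx
          · exact ⟨rfl, hx⟩
        · intro i _ hi
          rw [Set.indicator_of_notMem]
          intro h; exact hi h.1.symm
        · intro h; exact absurd (Finset.mem_univ _) h
      · rw [Set.indicator_of_notMem (by exact hx)]
        apply Finset.sum_eq_zero
        intro i _
        rw [Set.indicator_of_notMem]
        intro h; exact hx h.2
    rw [h2] at h1
    filter_upwards [h1] with x hx
    rw [Finset.sum_apply] at hx
    exact hx.symm
  -- the conditional probabilities given `m'`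
  set g : ι → X → ℝ := fun i x => r i (Z' x) x with hg
  have hgsum : ∀ i x, g i x = ∑ j, r i j x * (Z' ⁻¹' {j}).indicator (fun _ => (1:ℝ)) x := by
    intro i x
    rw [Finset.sum_eq_single (Z' x)]
    · rw [Set.indicator_of_mem (by rfl), mul_one]
    · intro j _ hj
      rw [Set.indicator_of_notMem, mul_zero]
      intro h; exact hj h.symm
    · intro h; exact absurd (Finset.mem_univ _) h
  have hindm' : ∀ j, StronglyMeasurable[m'] ((Z' ⁻¹' {j}).indicator (fun _ => (1:ℝ))) := by
    intro j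
    have : MeasurableSet[m'] (Z' ⁻¹' {j}) := hZ'm' _ ⟨{j}, trivial, rfl⟩
    have h0 : StronglyMeasurable[m'] (fun _ : X => (1:ℝ)) := stronglyMeasurable_const
    exact h0.indicator this
  have hgm : ∀ i, StronglyMeasurable[m'] (g i) := by
    intro i
    have : g i = fun x => ∑ j, r i j x * (Z' ⁻¹' {j}).indicator (fun _ => (1:ℝ)) x := by
      ext x; exact hgsum i x
    rw [this]
    apply Finset.stronglyMeasurable_fun_sum
    intro j _
    exact ((hrm i j).mono hmm').mul (hindm' j)
  have hgint : ∀ i, Integrable (g i) μ := by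
    intro i
    refine Integrable.of_bound ((hgm i).mono hm'X).aestronglyMeasurable 1 ?_
    have : ∀ᵐ x ∂μ, ∀ j, ‖r i j x‖ ≤ 1 := ae_all_iff.2 (hrb i)
    filter_upwards [this] with x hx
    exact hx (Z' x)
  have hgeq : ∀ i, g i =ᵐ[μ] μ[(Z ⁻¹' {i}).indicator (fun _ => (1 : ℝ)) | m'] := by
    intro i
    refine ae_eq_condExp_of_forall_setIntegral_eq hm'X (integrable_ind μ (hZ i))
      (fun S _ _ => (hgint i).integrableOn) ?_ (hgm i).aestronglyMeasurable
    intro S hS _
    choose C hC hSC using sup_comap_structure Z' hS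
    -- split according to `Z'`
    have hsplit : ∀ f : X → ℝ, Integrable f μ → ∫ x in S, f x ∂μ =
        ∑ j, ∫ x in C j, f x * (Z' ⁻¹' {j}).indicator (fun _ => (1:ℝ)) x ∂μ := by
      intro f hf
      have h1 : ∀ x, f x = ∑ j, f x * (Z' ⁻¹' {j}).indicator (fun _ => (1:ℝ)) x := by
        intro x
        rw [← Finset.mul_sum, Finset.sum_eq_single (Z' x)]
        · rw [Set.indicator_of_mem (by rfl), mul_one]
        · intro j _ hj
          rw [Set.indicator_of_notMem]
          intro h; exact hj h.symm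
        · intro h; exact absurd (Finset.mem_univ _) h
      have h2 : ∀ j, Integrable (fun x => f x * (Z' ⁻¹' {j}).indicator (fun _ => (1:ℝ)) x) μ := by
        intro j
        have : (fun x => f x * (Z' ⁻¹' {j}).indicator (fun _ => (1:ℝ)) x) =
            (Z' ⁻¹' {j}).indicator f := by
          ext x
          by_cases hx : x ∈ Z' ⁻¹' {j}
          · rw [Set.indicator_of_mem hx, Set.indicator_of_mem hx, mul_one]
          · rw [Set.indicator_of_notMem hx, Set.indicator_of_notMem hx, mul_zero]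
        rw [this]
        exact hf.indicator (hZ' j)
      calc ∫ x in S, f x ∂μ = ∫ x in S, ∑ j, f x * (Z' ⁻¹' {j}).indicator (fun _ => (1:ℝ)) x ∂μ := by
            apply integral_congr_ae
            exact Eventually.of_forall h1
        _ = ∑ j, ∫ x in S, f x * (Z' ⁻¹' {j}).indicator (fun _ => (1:ℝ)) x ∂μ := by
            rw [integral_finsetSum]
            intro j _
            exact (h2 j).integrableOn
        _ = _ := by
            apply Finset.sum_congr rfl
            intro j _
            rw [← integral_indicator (hm'X S hS), ← integral_indicator (hm _ (hC j))]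
            congr 1
            ext x
            by_cases hxj : x ∈ Z' ⁻¹' {j}
            · have : x ∈ S ↔ x ∈ C j := by
                have := Set.ext_iff.1 (hSC j) x
                simp only [Set.mem_inter_iff, hxj, and_true] at this
                exact this
              by_cases hxS : x ∈ S
              · rw [Set.indicator_of_mem hxS, Set.indicator_of_mem (this.1 hxS)]
              · rw [Set.indicator_of_notMem hxS, Set.indicator_of_notMem (fun h => hxS (this.2 h))]
            · have h0 : f x * (Z' ⁻¹' {j}).indicator (fun _ => (1:ℝ)) x = 0 := by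
                rw [Set.indicator_of_notMem hxj, mul_zero]
              by_cases hxS : x ∈ S <;> by_cases hxC : x ∈ C j <;>
                simp [Set.indicator, hxS, hxC, h0] <;> exact fun h => absurd h hxj
    rw [hsplit _ (hgint i), hsplit _ (integrable_ind μ (hZ i))]
    apply Finset.sum_congr rfl
    intro j _
    have h1 : ∫ x in C j, g i x * (Z' ⁻¹' {j}).indicator (fun _ => (1:ℝ)) x ∂μ =
        ∫ x in C j, r i j x * (Z' ⁻¹' {j}).indicator (fun _ => (1:ℝ)) x ∂μ := by
      congr 1
      ext x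
      by_cases hx : x ∈ Z' ⁻¹' {j}
      · have : Z' x = j := hx
        simp only [hg, this]
      · rw [Set.indicator_of_notMem hx, mul_zero, mul_zero]
    rw [h1, integral_ind_mul μ hm (hZ' j) (hrm i j) (hrb i j) (hC j)]
    have h2 : ∫ x in C j, r i j x * (μ[(Z' ⁻¹' {j}).indicator (fun _ => (1 : ℝ)) | m]) x ∂μ =
        ∫ x in C j, qq i j x ∂μ := by
      apply setIntegral_congr_ae (hm _ (hC j))
      filter_upwards [hrq i j] with x hx _
      exact hx
    rw [h2, setIntegral_condExp hm (integrable_ind μ (hAB i j)) (hC j)]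
    congr 1
    ext x
    by_cases hx : x ∈ Z ⁻¹' {i} <;> by_cases hx' : x ∈ Z' ⁻¹' {j} <;>
      simp [Set.indicator, hx, hx']
  -- entropy given `m'`
  have hnr : ∀ i j, StronglyMeasurable[m] (fun x => Real.negMulLog (r i j x)) := fun i j =>
    Real.continuous_negMulLog.comp_stronglyMeasurable (hrm i j)
  have hnrb : ∀ i j, ∀ᵐ x ∂μ, ‖Real.negMulLog (r i j x)‖ ≤ 1 := by
    intro i j
    filter_upwards [hr0 i j, hr1 i j] with x h0 h1
    rw [Real.norm_eq_abs, abs_of_nonneg (Real.negMulLog_nonneg h0 h1)]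
    have := Real.negMulLog_le_one_sub_self h0
    linarith
  have hqint : ∀ j, Integrable (q j) μ := fun j => integrable_condExp
  have hH : ∀ i, ∫ x, Real.negMulLog ((μ[(Z ⁻¹' {i}).indicator (fun _ => (1 : ℝ)) | m']) x) ∂μ =
      ∑ j, ∫ x, Real.negMulLog (r i j x) * q j x ∂μ := by
    intro i
    have h1 : ∫ x, Real.negMulLog ((μ[(Z ⁻¹' {i}).indicator (fun _ => (1 : ℝ)) | m']) x) ∂μ =
        ∫ x, ∑ j, Real.negMulLog (r i j x) * (Z' ⁻¹' {j}).indicator (fun _ => (1:ℝ)) x ∂μ := by
      apply integral_congr_ae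
      filter_upwards [hgeq i] with x hx
      rw [← hx]
      simp only [hg]
      rw [Finset.sum_eq_single (Z' x)]
      · rw [Set.indicator_of_mem (by rfl), mul_one]
      · intro j _ hj
        rw [Set.indicator_of_notMem, mul_zero]
        intro h; exact hj h.symm
      · intro h; exact absurd (Finset.mem_univ _) h
    rw [h1, integral_finsetSum]
    · apply Finset.sum_congr rfl
      intro j _
      have := integral_ind_mul μ hm (hZ' j) (hnr i j) (hnrb i j) (MeasurableSet.univ (m := m))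
      rw [Measure.restrict_univ] at this
      exact this
    · intro j _
      exact (integrable_ind μ (hZ' j)).bdd_mul ((hnr i j).mono hm).aestronglyMeasurable (hnrb i j)
  -- assembly
  have hpre : ∀ i j, (fun x => (Z x, Z' x)) ⁻¹' {(i, j)} = Z ⁻¹' {i} ∩ Z' ⁻¹' {j} := by
    intro i j
    ext x
    simp [Prod.ext_iff]
  have hL : cH μ m (fun x => (Z x, Z' x)) = ∑ j, ∑ i, ∫ x, Real.negMulLog (qq i j x) ∂μ := by
    unfold cH
    rw [Fintype.sum_prod_type, Finset.sum_comm]
    simp only [hpre]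
    rfl
  have hR : cH μ m' Z = ∑ j, ∑ i, ∫ x, Real.negMulLog (r i j x) * q j x ∂μ := by
    unfold cH
    rw [Finset.sum_comm]
    exact Finset.sum_congr rfl (fun i _ => hH i)
  have hM : cH μ m Z' = ∑ j, ∫ x, Real.negMulLog (q j x) ∂μ := rfl
  rw [hL, hR, hM, ← Finset.sum_add_distrib]
  apply Finset.sum_congr rfl
  intro j _
  have hi1 : ∀ i, Integrable (fun x => Real.negMulLog (r i j x) * q j x) μ := fun i =>
    (hqint j).bdd_mul ((hnr i j).mono hm).aestronglyMeasurable (hnrb i j)
  have hi2 : ∀ i, Integrable (fun x => Real.negMulLog (qq i j x)) μ := fun i =>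
    integrable_nml μ hm (hAB i j)
  rw [← integral_finsetSum _ (fun i _ => hi2 i), ← integral_finsetSum _ (fun i _ => hi1 i),
    ← integral_add (integrable_nml μ hm (hZ' j)) (integrable_finsetSum _ (fun i _ => hi1 i))]
  apply integral_congr_ae
  have h1 : ∀ᵐ x ∂μ, ∀ i, r i j x * q j x = qq i j x := ae_all_iff.2 (fun i => hrq i j)
  filter_upwards [h1, hsum j] with x hx1 hx2
  have h3 : ∀ i, Real.negMulLog (qq i j x) = q j x * Real.negMulLog (r i j x) +
      r i j x * Real.negMulLog (q j x) := by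
    intro i
    rw [← hx1 i, Real.negMulLog_mul]
  have h4 : (∑ i, r i j x) * Real.negMulLog (q j x) = Real.negMulLog (q j x) := by
    by_cases h : q j x = 0
    · rw [h]; simp
    · have : ∑ i, r i j x = 1 := by
        have e : ∑ i, r i j x = (∑ i, qq i j x) / q j x := by
          rw [Finset.sum_div]
        rw [e, hx2, div_self h]
      rw [this, one_mul]
  calc ∑ i, Real.negMulLog (qq i j x) = ∑ i, (q j x * Real.negMulLog (r i j x) +
      r i j x * Real.negMulLog (q j x)) := Finset.sum_congr rfl (fun i _ => h3 i)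
    _ = ∑ i, Real.negMulLog (r i j x) * q j x + (∑ i, r i j x) * Real.negMulLog (q j x) := by
      rw [Finset.sum_add_distrib, Finset.sum_mul]
      congr 1
      exact Finset.sum_congr rfl (fun i _ => mul_comm _ _)
    _ = _ := by rw [h4, add_comm]

theorem cH_comp_injective {m : MeasurableSpace X} {mX : MeasurableSpace X} (μ : Measure X)
    [IsProbabilityMeasure μ] (Z : X → ι) {e : ι → ι'}
    (he : Function.Injective e) : cH μ m (fun x => e (Z x)) = cH μ m Z := by
  unfold cH
  symm
  apply Fintype.sum_of_injective e he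
  · intro j hj
    have : (fun x => e (Z x)) ⁻¹' {j} = ∅ := by
      ext x
      simp only [Set.mem_preimage, Set.mem_singleton_iff, Set.mem_empty_iff_false, iff_false]
      intro h
      exact hj ⟨Z x, h⟩
    rw [this, Set.indicator_empty]
    have h0 : μ[(fun _ => (0:ℝ)) | m] = 0 := condExp_zero
    rw [h0]
    simp
  · intro i
    have : (fun x => e (Z x)) ⁻¹' {e i} = Z ⁻¹' {i} := by
      ext x
      simp only [Set.mem_preimage, Set.mem_singleton_iff]
      exact he.eq_iff
    rw [this]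

theorem cH_eq_zero {m : MeasurableSpace X} {mX : MeasurableSpace X} (μ : Measure X)
    [IsProbabilityMeasure μ] (hm : m ≤ mX) (Z : X → ι)
    (hZ : ∀ i, MeasurableSet[m] (Z ⁻¹' {i})) : cH μ m Z = 0 := by
  unfold cH
  apply Finset.sum_eq_zero
  intro i _
  have h0 : StronglyMeasurable[m] (fun _ : X => (1:ℝ)) := stronglyMeasurable_const
  rw [condExp_of_stronglyMeasurable hm (h0.indicator (hZ i)) (integrable_ind μ (hm _ (hZ i)))]
  have : ∀ x, Real.negMulLog ((Z ⁻¹' {i}).indicator (fun _ => (1:ℝ)) x) = 0 := by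
    intro x
    by_cases hx : x ∈ Z ⁻¹' {i}
    · rw [Set.indicator_of_mem hx, Real.negMulLog_one]
    · rw [Set.indicator_of_notMem hx, Real.negMulLog_zero]
  simp only [this, integral_zero]

theorem cH_comap {m : MeasurableSpace X} {mX : MeasurableSpace X} (μ : Measure X)
    [IsProbabilityMeasure μ] (hm : m ≤ mX) (Z : X → ι)
    (hZ : ∀ i, MeasurableSet (Z ⁻¹' {i})) {S : X → X} (hS : MeasurePreserving S μ μ) :
    cH μ (m.comap S) (fun x => Z (S x)) = cH μ m Z := by
  unfold cH
  apply Finset.sum_congr rfl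
  intro i _
  have hcm : m.comap S ≤ mX := by
    rintro s ⟨t, ht, rfl⟩
    exact hS.measurable (hm t ht)
  set f : X → ℝ := (Z ⁻¹' {i}).indicator (fun _ => (1 : ℝ)) with hf
  have hfi : Integrable f μ := integrable_ind μ (hZ i)
  have hpre : ((fun x => Z (S x)) ⁻¹' {i}).indicator (fun _ => (1 : ℝ)) = f ∘ S := by
    ext x
    rfl
  rw [hpre]
  have hfS : Integrable (f ∘ S) μ := hS.integrable_comp_of_integrable hfi
  have hcS : Integrable ((μ[f | m]) ∘ S) μ := hS.integrable_comp_of_integrable integrable_condExp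
  have hset : ∀ (u : X → ℝ), AEStronglyMeasurable u μ → ∀ t : Set X, MeasurableSet t →
      ∫ x in S ⁻¹' t, (u ∘ S) x ∂μ = ∫ x in t, u x ∂μ := by
    intro u hu t ht
    have h1 : ∫ x in t, u x ∂μ = ∫ x in t, u x ∂(Measure.map S μ) := by rw [hS.map_eq]
    rw [h1, setIntegral_map ht (by rw [hS.map_eq]; exact hu) hS.measurable.aemeasurable]
    rfl
  have hkey : (μ[f | m]) ∘ S =ᵐ[μ] μ[f ∘ S | m.comap S] := by
    refine ae_eq_condExp_of_forall_setIntegral_eq hcm hfS (fun s _ _ => hcS.integrableOn) ?_ ?_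
    · rintro s ⟨t, ht, rfl⟩ _
      rw [hset _ integrable_condExp.aestronglyMeasurable t (hm t ht),
        hset _ hfi.aestronglyMeasurable t (hm t ht), setIntegral_condExp hm hfi ht]
    · have : Measurable[m.comap S, m] S := measurable_iff_comap_le.mpr le_rfl
      have h2 : StronglyMeasurable[m.comap S] ((μ[f | m]) ∘ S) :=
        stronglyMeasurable_condExp.comp_measurable this
      exact h2.aestronglyMeasurable
  calc ∫ x, Real.negMulLog ((μ[f ∘ S | m.comap S]) x) ∂μ
      = ∫ x, ((fun y => Real.negMulLog ((μ[f | m]) y)) ∘ S) x ∂μ := by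
        apply integral_congr_ae
        filter_upwards [hkey] with x hx
        rw [← hx]; rfl
    _ = ∫ x, Real.negMulLog ((μ[f | m]) x) ∂μ := by
        have := hset (fun y => Real.negMulLog ((μ[f | m]) y))
          (integrable_nml μ hm (hZ i)).aestronglyMeasurable Set.univ MeasurableSet.univ
        simpa using this

theorem tendsto_cH {m : ℕ → MeasurableSpace X} {mX : MeasurableSpace X} (μ : Measure X)
    [IsProbabilityMeasure μ] (hmono : Monotone m) (hm : ∀ n, m n ≤ mX)
    (Z : X → ι) (hZ : ∀ i, MeasurableSet (Z ⁻¹' {i})) :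
    Tendsto (fun n => cH μ (m n) Z) atTop (𝓝 (cH μ (⨆ n, m n) Z)) := by
  unfold cH
  apply tendsto_finsetSum
  intro i _
  let F : Filtration ℕ mX := ⟨m, hmono, hm⟩
  have hF : ∀ n, (F n : MeasurableSpace X) = m n := fun n => rfl
  apply tendsto_integral_of_dominated_convergence (fun _ => (1:ℝ))
  · intro n
    exact (integrable_nml μ (hm n) (hZ i)).aestronglyMeasurable
  · exact integrable_const _
  · intro n
    filter_upwards [condExp_ind_nonneg μ (m n) (Z ⁻¹' {i}), condExp_ind_le_one μ (hm n) (hZ i)]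
      with x h0 h1
    rw [Real.norm_eq_abs, abs_of_nonneg (Real.negMulLog_nonneg h0 h1)]
    have := Real.negMulLog_le_one_sub_self h0
    linarith
  · have h := tendsto_ae_condExp (ℱ := F) (μ := μ) ((Z ⁻¹' {i}).indicator (fun _ => (1 : ℝ)))
    filter_upwards [h] with x hx
    exact (Real.continuous_negMulLog.tendsto _).comp hx

end Pool.Agent.Lib.Pf720pi
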